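import Pool.Agent.H13.TFQ.H16.FU.Pri_1
import Pool.Agent.H13.TFQ.H71.FQ.KQ_1
import Pool.Agent.H13.TFQ.H95.WH.Defs

/-!
# Project FU: the product `K₁(B) × H_{n+1}(Γ) → KQ A (n + 1)`

For a ring homomorphism `φ : B → A` and a homomorphism `κ : Γ → Aˣ` with values commuting with the image of `φ`, an
invertible matrix `U` over `B` and `z ∈ H_{n+1}(Γ)` give the product of the image of `z` under the scalar matrices
`κ γ` with the element `φ(U)` of `GL_N(A)` (`HG.cr`).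

PROOFS. `asm1`: additivity is `HG.cr_mul`; stability: `HG.cr` for `Γ → GL_N(A) × GL_1(A)` and `(U, 1)`, `KQ.cls_blk`,
`HG.map_cr`, `HG.cr_one`. `cls_orth`: with `E` the idempotent, the matrix with blocks `E, 1 - E; 1 - E, E` is its own
inverse and conjugates `f g ⊕ 1` to `f ⊕ g` (`KQ.cls_congr`; first `KQ.cls_sum`-type additivity `cls_add`).
`asm1_bass`: with the homomorphisms `(γ, i) ↦ κ γ (1 + e (w ^ i - 1))`, `1 + e (κ γ w ^ i - 1)` and
`e + (1 - e) κ γ` of `Γ × ℤ` (`HG.cr_eq_map`, `cls_orth`, `HG.map_crz_zero`).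
-/

set_option autoImplicit false

open Matrix

universe u v w

namespace Pool.Agent.H16.FU

open Pool.Agent.H71.FQ
open Pool.Agent.H95.WH (K1 K1.mk K1.lift K1.lift_mk K1.hom_ext K1.map K1.map_mk stab)

section

end

section

variable {A : Type u} [Ring A] {B : Type v} [Ring B] {Γ : Type w} [Group Γ] {n : ℕ}

/-- the scalar matrices `κ γ` -/
def scal (N : ℕ) (κ : Γ →* Aˣ) : Γ →* GLm N A :=
  (Units.map (Matrix.scalar (Fin N) : A →+* Matrix (Fin N) (Fin N) A).toMonoidHom).comp κ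

theorem scal_val (N : ℕ) (κ : Γ →* Aˣ) (γ : Γ) :
    (scal N κ γ).val = diagonal fun _ => (κ γ : A) := rfl

theorem scal_comm (φ : B →+* A) (κ : Γ →* Aˣ) (hκ : ∀ γ b, φ b * (κ γ : A) = κ γ * φ b) {N : ℕ}
    (U : GLm N B) (γ : Γ) : scal N κ γ * mapGL φ N U = mapGL φ N U * scal N κ γ := by
  apply Units.ext
  change (diagonal fun _ : Fin N => (κ γ : A)) * U.val.map φ =
    U.val.map φ * (diagonal fun _ : Fin N => (κ γ : A))
  refine Matrix.ext fun i j => ?_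
  rw [Matrix.diagonal_mul, Matrix.mul_diagonal, Matrix.map_apply, hκ]

theorem cr_congr {Λ : Type*} [Group Λ] {f f' : Γ →* Λ} {u u' : Λ} (e : f = f')
    (e' : u = u') (hu : ∀ γ, f γ * u = u * f γ) (hu' : ∀ γ, f' γ * u' = u' * f' γ)
    (z : HG Γ n) : HG.cr f u hu z = HG.cr f' u' hu' z := by
  subst e
  subst e'
  rfl

private theorem blk_scal (N : ℕ) (κ : Γ →* Aˣ) :
    (blk N 1 A).comp ((scal N κ).prod (scal 1 κ)) = scal (N + 1) κ := by
  refine MonoidHom.ext fun γ => Units.ext ?_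
  change (fromBlocks (diagonal fun _ : Fin N => (κ γ : A)) 0 0
    (diagonal fun _ : Fin 1 => (κ γ : A))).submatrix finSumFinEquiv.symm finSumFinEquiv.symm =
      diagonal fun _ : Fin (N + 1) => (κ γ : A)
  rw [fromBlocks_diagonal, submatrix_diagonal_equiv]
  congr 1
  funext i
  change Sum.elim (fun _ : Fin N => (κ γ : A)) (fun _ : Fin 1 => (κ γ : A))
    (finSumFinEquiv.symm i) = _
  rcases finSumFinEquiv.symm i with j | j <;> rfl

private theorem blk_mapGL_one (φ : B →+* A) (N : ℕ) (U : GLm N B) :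
    blk N 1 A (mapGL φ N U, 1) = mapGL φ (N + 1) (stab U) := by
  have e : mapGL φ (N + 1) (stab U) = stab (mapGL φ N U) :=
    Pool.Agent.H95.WH.K1.stab_mapU φ U
  rw [e]
  exact Units.ext rfl

private theorem cls_cr_blk {N M : ℕ} (f : Γ →* GLm N A) (g : Γ →* GLm M A) (u : GLm N A)
    (v : GLm M A) (hu : ∀ γ, f γ * u = u * f γ) (hv : ∀ γ, g γ * v = v * g γ)
    (F : Γ →* GLm (N + M) A) (w : GLm (N + M) A) (hFw : ∀ γ, F γ * w = w * F γ)
    (hF : (blk N M A).comp (f.prod g) = F) (hw : blk N M A (u, v) = w) (z : HG Γ n) :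
    KQ.cls A (n + 1) (N + M) (HG.cr F w hFw z) =
      KQ.cls A (n + 1) N (HG.cr f u hu z) + KQ.cls A (n + 1) M (HG.cr g v hv z) := by
  have h0 : ∀ γ, (f.prod g) γ * (u, v) = (u, v) * (f.prod g) γ := fun γ =>
    Prod.ext (hu γ) (hv γ)
  subst hF
  subst hw
  rw [← HG.map_cr (f.prod g) (blk N M A) (u, v) h0 hFw z, KQ.cls_blk]
  congr 1
  · exact congrArg _ (HG.map_cr (f.prod g) (MonoidHom.fst (GLm N A) (GLm M A)) (u, v) h0 hu z)
  · exact congrArg _ (HG.map_cr (f.prod g) (MonoidHom.snd (GLm N A) (GLm M A)) (u, v) h0 hv z)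

private theorem cr_stab (φ : B →+* A) (κ : Γ →* Aˣ) (hκ : ∀ γ b, φ b * (κ γ : A) = κ γ * φ b)
    {N : ℕ} (U : GLm N B) (z : HG Γ n) :
    KQ.cls A (n + 1) (N + 1) (HG.cr (scal (N + 1) κ) (mapGL φ (N + 1) (stab U))
      (scal_comm φ κ hκ (stab U)) z) =
    KQ.cls A (n + 1) N (HG.cr (scal N κ) (mapGL φ N U) (scal_comm φ κ hκ U) z) := by
  rw [cls_cr_blk (scal N κ) (scal 1 κ) (mapGL φ N U) 1 (scal_comm φ κ hκ U)
    (fun γ => by rw [mul_one, one_mul]) (scal (N + 1) κ) _ _ (blk_scal N κ)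
    (blk_mapGL_one φ N U) z, HG.cr_one, map_zero, add_zero]

variable (n) in
/-- The product `K₁(B) × H_{n+1}(Γ) → KQ A (n + 1)`. -/
noncomputable def asm1 (φ : B →+* A) (κ : Γ →* Aˣ) (hκ : ∀ γ b, φ b * (κ γ : A) = κ γ * φ b) :
    K1 B →+ (HG Γ n →+ KQ A (n + 1)) :=
  K1.lift (fun N U => (KQ.cls A (n + 1) N).comp
      (HG.cr (scal N κ) (mapGL φ N U) (scal_comm φ κ hκ U)))
    (by
      intro N U V
      apply AddMonoidHom.ext
      intro z
      change KQ.cls A (n + 1) N (HG.cr (scal N κ) (mapGL φ N (U * V)) _ z) =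
        KQ.cls A (n + 1) N (HG.cr (scal N κ) (mapGL φ N U) _ z) +
          KQ.cls A (n + 1) N (HG.cr (scal N κ) (mapGL φ N V) _ z)
      rw [← map_add, ← HG.cr_mul (scal N κ) (mapGL φ N U) (mapGL φ N V) (scal_comm φ κ hκ U)
        (scal_comm φ κ hκ V) (fun γ => by
          rw [← map_mul]
          exact scal_comm φ κ hκ (U * V) γ) z]
      exact congrArg _ (cr_congr rfl (map_mul _ U V) _ _ z))
    (by
      intro N U
      apply AddMonoidHom.ext
      intro z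
      exact cr_stab φ κ hκ U z)

theorem asm1_mk (φ : B →+* A) (κ : Γ →* Aˣ) (hκ : ∀ γ b, φ b * (κ γ : A) = κ γ * φ b)
    {N : ℕ} (U : GLm N B) (z : HG Γ n) :
    asm1 n φ κ hκ (K1.mk U) z = KQ.cls A (n + 1) N
      (HG.cr (scal N κ) (mapGL φ N U) (scal_comm φ κ hκ U) z) := by
  rw [asm1, K1.lift_mk]
  rfl

theorem asm1_comp {C : Type*} [Ring C] (φ : B →+* A) (ψ : C →+* B) (κ : Γ →* Aˣ)
    (hκ : ∀ γ b, φ b * (κ γ : A) = κ γ * φ b)
    (h : ∀ γ c, (φ.comp ψ) c * (κ γ : A) = κ γ * (φ.comp ψ) c) (x : K1 C) (z : HG Γ n) :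
    asm1 n φ κ hκ (K1.map ψ x) z = asm1 n (φ.comp ψ) κ h x z := by
  suffices H : (asm1 n φ κ hκ).comp (K1.map ψ) = asm1 n (φ.comp ψ) κ h from
    DFunLike.congr_fun (DFunLike.congr_fun H x) z
  apply K1.hom_ext
  intro N U
  apply AddMonoidHom.ext
  intro z
  rw [AddMonoidHom.comp_apply, K1.map_mk, asm1_mk, asm1_mk]
  exact congrArg _ (cr_congr rfl (Units.ext rfl) _ _ z)

theorem asm1_map {Γ' : Type*} [Group Γ'] (φ : B →+* A) (κ : Γ →* Aˣ)
    (hκ : ∀ γ b, φ b * (κ γ : A) = κ γ * φ b) (f : Γ' →* Γ)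
    (h : ∀ γ b, φ b * ((κ.comp f) γ : A) = (κ.comp f) γ * φ b) (x : K1 B) (z : HG Γ' n) :
    asm1 n φ κ hκ x (HG.map n f z) = asm1 n φ (κ.comp f) h x z := by
  suffices H' : (AddMonoidHom.compHom.flip (HG.map n f)).comp (asm1 n φ κ hκ) =
      asm1 n φ (κ.comp f) h from DFunLike.congr_fun (DFunLike.congr_fun H' x) z
  apply K1.hom_ext
  intro N U
  apply AddMonoidHom.ext
  intro z
  change asm1 n φ κ hκ (K1.mk U) (HG.map n f z) = _
  rw [asm1_mk, asm1_mk, ← HG.cr_comp (scal N κ) f (mapGL φ N U) (scal_comm φ κ hκ U)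
    (scal_comm φ (κ.comp f) h U) z]
  rfl

theorem asm1_conj (φ φ' : B →+* A) (κ κ' : Γ →* Aˣ) (g : Aˣ)
    (hκ : ∀ γ b, φ b * (κ γ : A) = κ γ * φ b) (hκ' : ∀ γ b, φ' b * (κ' γ : A) = κ' γ * φ' b)
    (h : ∀ b, φ' b = g * φ b * ((g⁻¹ : Aˣ) : A)) (h' : ∀ γ, κ' γ = g * κ γ * g⁻¹)
    (x : K1 B) (z : HG Γ n) : asm1 n φ' κ' hκ' x z = asm1 n φ κ hκ x z := by
  suffices H : asm1 n φ' κ' hκ' = asm1 n φ κ hκ from
    DFunLike.congr_fun (DFunLike.congr_fun H x) z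
  apply K1.hom_ext
  intro N U
  apply AddMonoidHom.ext
  intro z
  rw [asm1_mk, asm1_mk]
  congr 1
  have hd1 : (Matrix.diagonal fun _ : Fin N => (g : A)) *
      (Matrix.diagonal fun _ : Fin N => ((g⁻¹ : Aˣ) : A)) = 1 := by
    rw [Matrix.diagonal_mul_diagonal, ← Matrix.diagonal_one]
    simp
  have hd2 : (Matrix.diagonal fun _ : Fin N => ((g⁻¹ : Aˣ) : A)) *
      (Matrix.diagonal fun _ : Fin N => (g : A)) = 1 := by
    rw [Matrix.diagonal_mul_diagonal, ← Matrix.diagonal_one]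
    simp
  let D : GLm N A := ⟨_, _, hd1, hd2⟩
  let c : GLm N A →* GLm N A := (MulAut.conj D).toMonoidHom
  have e1 : c.comp (scal N κ) = scal N κ' := by
    refine MonoidHom.ext fun γ => Units.ext ?_
    change (Matrix.diagonal fun _ : Fin N => (g : A)) * (diagonal fun _ : Fin N => (κ γ : A)) *
      (Matrix.diagonal fun _ : Fin N => ((g⁻¹ : Aˣ) : A)) = diagonal fun _ : Fin N => (κ' γ : A)
    rw [Matrix.diagonal_mul_diagonal, Matrix.diagonal_mul_diagonal]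
    congr 1
    funext i
    rw [h', Units.val_mul, Units.val_mul]
  have e2 : c (mapGL φ N U) = mapGL φ' N U := by
    refine Units.ext ?_
    change (Matrix.diagonal fun _ : Fin N => (g : A)) * U.val.map φ *
      (Matrix.diagonal fun _ : Fin N => ((g⁻¹ : Aˣ) : A)) = U.val.map φ'
    refine Matrix.ext fun i j => ?_
    rw [Matrix.mul_diagonal, Matrix.diagonal_mul, Matrix.map_apply, Matrix.map_apply, h]
  have hc : ∀ γ, (c.comp (scal N κ)) γ * c (mapGL φ N U) =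
      c (mapGL φ N U) * (c.comp (scal N κ)) γ := by
    intro γ
    rw [MonoidHom.comp_apply, ← map_mul, ← map_mul, scal_comm φ κ hκ]
  rw [← cr_congr e1 e2 hc _ z, ← HG.map_cr (scal N κ) c (mapGL φ N U) (scal_comm φ κ hκ U) hc z,
    HG.map_conj (MonoidHom.id (GLm N A)) c D (fun a => rfl), HG.map_id]

theorem asm1_congr {φ φ' : B →+* A} {κ κ' : Γ →* Aˣ} (e : φ = φ') (e' : κ = κ')
    (hκ : ∀ γ b, φ b * (κ γ : A) = κ γ * φ b) (hκ' : ∀ γ b, φ' b * (κ' γ : A) = κ' γ * φ' b)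
    (x : K1 B) (z : HG Γ n) : asm1 n φ κ hκ x z = asm1 n φ' κ' hκ' x z := by
  subst e
  subst e'
  rfl

end

section

end

end Pool.Agent.H16.FU
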