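import Pool.Agent.H13.TFQ.H16.FU.Asm1_2
import Pool.Agent.H13.TFQ.M16

/-!
# Project FU: the product `K₁(B) × H_{n+1}(Γ) → KQ A (n + 1)`

For a ring homomorphism `φ : B → A` and a homomorphism `κ : Γ → Aˣ` with values commuting with the image of `φ`, an
invertible matrix `U` over `B` and `z ∈ H_{n+1}(Γ)` give the product of the image of `z` under the scalar matrices
`κ γ` with the element `φ(U)` of `GL_N(A)` (`HG.cr`).

PROOFS. `asm1`: additivity is `HG.cr_mul`; stability: `HG.cr` for `Γ → GL_N(A) × GL_1(A)` and `(U, 1)`, `KQ.cls_blk`,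
`HG.map_cr`, `HG.cr_one`. `cls_orth`: with `E` the idempotent, the matrix with blocks `E, 1 - E; 1 - E, E` is its own
inverse and conjugates `f g ⊕ 1` to `f ⊕ g` (`KQ.cls_congr`; first `KQ.cls_sum`-type additivity `cls_add`).
`asm1_bass`: with the homomorphisms `(γ, i) ↦ κ γ (1 + e (w ^ i - 1))`, `1 + e (κ γ w ^ i - 1)` and
`e + (1 - e) κ γ` of `Γ × ℤ` (`HG.cr_eq_map`, `cls_orth`, `HG.map_crz_zero`).
-/

set_option autoImplicit false

open Matrix

universe u v w

namespace Pool.Agent.H16.FU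

open Pool.Agent.H71.FQ
open Pool.Agent.H71.FJ (MatEquiv IdemMat K0 K0.mk K0.lift K0.lift_mk K0.hom_ext K0.map)
open Pool.Agent.H71.DB (bmat bU bmat_mul bmat_one bass bass_mk)
open Pool.Agent.H95.WH (K1 K1.mk K1.lift K1.lift_mk K1.hom_ext K1.map K1.map_mk stab)

section

variable {A : Type u} [Ring A] {n : ℕ}

/-- **Orthogonal representations.** -/
theorem cls_orth {Γ : Type w} [Group Γ] {N : ℕ} (f g h : Γ →* GLm N A)
    (E : Matrix (Fin N) (Fin N) A) (hE : E * E = E) (hEf : ∀ γ, E * (f γ).val = (f γ).val * E)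
    (hEg : ∀ γ, E * (g γ).val = (g γ).val * E)
    (hf : ∀ γ, (f γ).val * (1 - E) = 1 - E) (hg : ∀ γ, (g γ).val * E = E)
    (hh : ∀ γ, h γ = f γ * g γ) (x : HG Γ n) :
    KQ.cls A n N (HG.map n h x) = KQ.cls A n N (HG.map n f x) + KQ.cls A n N (HG.map n g x) := by
  have e1 : E * (1 - E) = 0 := by rw [mul_sub, mul_one, hE, sub_self]
  have e2 : (1 - E) * E = 0 := by rw [sub_mul, one_mul, hE, sub_self]
  have e3 : (1 - E) * (1 - E) = 1 - E := by rw [sub_mul, one_mul, e1, sub_zero]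
  have hW : fromBlocks E (1 - E) (1 - E) E * fromBlocks E (1 - E) (1 - E) E = 1 := by
    rw [fromBlocks_multiply, hE, e1, e2, e3, add_zero, ← fromBlocks_one, add_sub_cancel,
      sub_add_cancel]
  have h1 := KQ.cls_pair h (1 : Γ →* GLm N A) x
  rw [HG.map_one, map_zero, add_zero] at h1
  rw [← h1, ← KQ.cls_pair]
  congr 1
  refine HG.map_conj _ _ (toFin ⟨_, _, hW, hW⟩) ?_ x
  intro γ
  rw [eq_mul_inv_iff_mul_eq]
  refine Units.ext ?_
  show blkM (h γ).val (1 : Matrix (Fin N) (Fin N) A) *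
      (fromBlocks E (1 - E) (1 - E) E).submatrix finSumFinEquiv.symm finSumFinEquiv.symm =
    (fromBlocks E (1 - E) (1 - E) E).submatrix finSumFinEquiv.symm finSumFinEquiv.symm *
      blkM (f γ).val (g γ).val
  have c1 : (h γ).val * E = E * (f γ).val := by
    rw [hh, Units.val_mul, Matrix.mul_assoc, hg, hEf]
  have c2 : (h γ).val * (1 - E) = (1 - E) * (g γ).val := by
    have c3 : (g γ).val * (1 - E) = (1 - E) * (g γ).val := by
      rw [mul_sub, sub_mul, mul_one, one_mul, hEg]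
    rw [hh, Units.val_mul, Matrix.mul_assoc, c3, ← Matrix.mul_assoc, hf]
  have c4 : (1 - E) * (f γ).val = 1 - E := by
    rw [sub_mul, one_mul, hEf, ← hf γ, mul_sub, mul_one]
  have c5 : E * (g γ).val = E := by rw [hEg, hg]
  rw [blkM, blkM, submatrix_mul_equiv, submatrix_mul_equiv, fromBlocks_multiply,
    fromBlocks_multiply, c1, c2, c4, c5]
  simp

end

section

variable {A : Type u} [Ring A] {B : Type v} [Ring B] {Γ : Type w} [Group Γ] {n : ℕ}

theorem map_asm1 {C : Type*} [Ring C] (φ : B →+* A) (κ : Γ →* Aˣ)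
    (hκ : ∀ γ b, φ b * (κ γ : A) = κ γ * φ b) (f : A →+* C)
    (h : ∀ γ b, (f.comp φ) b * (((Units.map (f : A →* C)).comp κ) γ : C) =
      ((Units.map (f : A →* C)).comp κ) γ * (f.comp φ) b) (x : K1 B) (z : HG Γ n) :
    KQ.map f (asm1 n φ κ hκ x z) = asm1 n (f.comp φ) ((Units.map (f : A →* C)).comp κ) h x z := by
  suffices H : (AddMonoidHom.compHom (KQ.map f)).comp (asm1 n φ κ hκ) =
      asm1 n (f.comp φ) ((Units.map (f : A →* C)).comp κ) h from
    DFunLike.congr_fun (DFunLike.congr_fun H x) z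
  apply K1.hom_ext
  intro N U
  apply AddMonoidHom.ext
  intro z
  change KQ.map f (asm1 n φ κ hκ (K1.mk U) z) = _
  have e1 : (mapGL f N).comp (scal N κ) = scal N ((Units.map (f : A →* C)).comp κ) := by
    refine MonoidHom.ext fun γ => Units.ext ?_
    change (diagonal fun _ : Fin N => (κ γ : A)).map f = diagonal fun _ : Fin N => f (κ γ : A)
    rw [Matrix.diagonal_map (map_zero f)]
  have e2 : mapGL f N (mapGL φ N U) = mapGL (f.comp φ) N U := Units.ext rfl
  have hc : ∀ γ, ((mapGL f N).comp (scal N κ)) γ * mapGL f N (mapGL φ N U) =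
      mapGL f N (mapGL φ N U) * ((mapGL f N).comp (scal N κ)) γ := by
    intro γ
    rw [MonoidHom.comp_apply, ← map_mul, ← map_mul, scal_comm φ κ hκ]
  rw [asm1_mk, asm1_mk, KQ.map_cls, HG.map_cr (scal N κ) (mapGL f N) (mapGL φ N U)
    (scal_comm φ κ hκ U) hc z]
  exact congrArg _ (cr_congr e1 e2 _ _ z)

private theorem bmat_eq {C : Type*} [Ring C] (θ : C →+* A) {N : ℕ}
    (e : Matrix (Fin N) (Fin N) C) (w : A) :
    bmat θ e w = 1 - e.map θ + e.map θ * diagonal fun _ => w := by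
  refine Matrix.ext fun i j => ?_
  rw [bmat, Matrix.add_apply, Matrix.add_apply, Matrix.sub_apply, Matrix.mul_diagonal,
    Matrix.map_apply, Matrix.map_apply, mul_sub, mul_one]
  abel

private theorem map_diag_comm {C : Type*} [Ring C] (θ : C →+* A) {N : ℕ}
    (e : Matrix (Fin N) (Fin N) C) (w : A) (hw : ∀ c, θ c * w = w * θ c) :
    (e.map θ * diagonal fun _ => w) = (diagonal fun _ => w) * e.map θ := by
  refine Matrix.ext fun i j => ?_
  rw [Matrix.mul_diagonal, Matrix.diagonal_mul, Matrix.map_apply, hw]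

private theorem idem_fac {S : Type*} [Ring S] (E k v : S) (hE : E * E = E) (hk : E * k = k * E)
    (hv : E * v = v * E) :
    k * (1 - E + E * v) = (1 - E + E * (k * v)) * (1 - (1 - E) + (1 - E) * k) := by
  have e1 : (1 - E) * E = 0 := by rw [sub_mul, one_mul, hE, sub_self]
  have e2 : E * (1 - E) = 0 := by rw [mul_sub, mul_one, hE, sub_self]
  have e3 : (1 - E) * (1 - E) = 1 - E := by rw [sub_mul, one_mul, e2, sub_zero]
  have hkv : E * (k * v) = k * v * E := by rw [← mul_assoc, hk, mul_assoc, hv, mul_assoc]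
  have f1 : (1 - E + E * (k * v)) * E = E * (k * v) := by
    rw [add_mul, e1, zero_add, mul_assoc, ← hkv, ← mul_assoc, hE]
  have f2 : (1 - E + E * (k * v)) * ((1 - E) * k) = (1 - E) * k := by
    rw [add_mul, ← mul_assoc, e3, hkv, mul_assoc (k * v) E, ← mul_assoc E, e2, zero_mul,
      mul_zero, add_zero]
  have f3 : k * (1 - E + E * v) = (1 - E) * k + E * (k * v) := by
    rw [mul_add, mul_sub, sub_mul, mul_one, one_mul, ← mul_assoc k E v, ← hk, mul_assoc E k v]
  rw [sub_sub_cancel, f3, mul_add, f1, f2, add_comm]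

private theorem idem_comm {S : Type*} [Ring S] (E q : S) (hq : E * q = q * E) :
    E * (1 - E + E * q) = (1 - E + E * q) * E := by
  rw [mul_add, add_mul, mul_sub, sub_mul, mul_one, one_mul, mul_assoc E q E, ← hq]

private theorem idem_kill {S : Type*} [Ring S] (E q : S) (hE : E * E = E) (hq : E * q = q * E) :
    (1 - E + E * q) * (1 - E) = 1 - E := by
  have e2 : E * (1 - E) = 0 := by rw [mul_sub, mul_one, hE, sub_self]
  have e3 : (1 - E) * (1 - E) = 1 - E := by rw [sub_mul, one_mul, e2, sub_zero]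
  rw [add_mul, e3, hq, mul_assoc, e2, mul_zero, add_zero]

/-- **The product with a unit.** For a unit `w` of `B` commuting with the image of `ψ : C → B` the class
`[1 + e (w - 1)]` times `z` is the product of `[e]` with `z × t` for `(γ, i) ↦ κ γ w ^ i`. -/
theorem asm1_bass {C : Type*} [Ring C] (φ : B →+* A) (ψ : C →+* B) (κ : Γ →* Aˣ)
    (hκ : ∀ γ b, φ b * (κ γ : A) = κ γ * φ b) (w : Bˣ) (hw : ∀ c, ψ c * w = w * ψ c)
    (hu : ∀ γ, κ γ * Units.map (φ : B →* A) w = Units.map (φ : B →* A) w * κ γ)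
    (h : ∀ x c, (φ.comp ψ) c * (zhom κ (Units.map (φ : B →* A) w) hu x : A) =
      zhom κ (Units.map (φ : B →* A) w) hu x * (φ.comp ψ) c) (y : K0 C) (z : HG Γ n) :
    asm1 n φ κ hκ (bass ψ w hw y) z =
      asm (n + 1) (φ.comp ψ) (zhom κ (Units.map (φ : B →* A) w) hu) h y (HG.crz Γ n z) := by
  suffices H : (asm1 n φ κ hκ).comp (bass ψ w hw) = (AddMonoidHom.compHom.flip
      (HG.crz Γ n)).comp (asm (n + 1) (φ.comp ψ) (zhom κ (Units.map (φ : B →* A) w) hu) h) from
    DFunLike.congr_fun (DFunLike.congr_fun H y) z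
  apply K0.hom_ext
  intro a
  apply AddMonoidHom.ext
  intro z
  change asm1 n φ κ hκ (bass ψ w hw (K0.mk a)) z =
    asm (n + 1) (φ.comp ψ) (zhom κ (Units.map (φ : B →* A) w) hu) h (K0.mk a) (HG.crz Γ n z)
  rw [bass_mk, asm1_mk, asm_mk, HG.cr_eq_map]
  let ac : IdemMat C := ⟨a.n, 1 - a.mat, by
    rw [mul_sub, mul_one, sub_mul, one_mul, a.idem, sub_self, sub_zero]⟩
  have h2 : ∀ (x : Γ × Multiplicative ℤ) c, (φ.comp ψ) c *
      ((κ.comp (MonoidHom.fst Γ (Multiplicative ℤ))) x : A) =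
      ((κ.comp (MonoidHom.fst Γ (Multiplicative ℤ))) x : A) * (φ.comp ψ) c :=
    fun x c => hκ x.1 (ψ c)
  have hW : ∀ (i : Multiplicative ℤ) c, (φ.comp ψ) c *
      ((zpowersHom Aˣ (Units.map (φ : B →* A) w)) i : A) =
      ((zpowersHom Aˣ (Units.map (φ : B →* A) w)) i : A) * (φ.comp ψ) c := by
    intro i c
    have h3 := h (1, i) c
    have h4 : zhom κ (Units.map (φ : B →* A) w) hu (1, i) =
        zpowersHom Aˣ (Units.map (φ : B →* A) w) i := by
      change κ 1 * (Units.map (φ : B →* A) w) ^ (Multiplicative.toAdd i) = _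
      rw [map_one, one_mul]
      rfl
    rw [h4] at h3
    exact h3
  -- the powers of the matrix
  have hpow : ∀ i : Multiplicative ℤ,
      ((mapGL φ a.n (bU ψ a.mat a.idem w hw)) ^ (Multiplicative.toAdd i) : GLm a.n A) =
        rho (φ.comp ψ) (zpowersHom Aˣ (Units.map (φ : B →* A) w)) hW a i := by
    intro i
    have e1 : mapGL φ a.n (bU ψ a.mat a.idem w hw) =
        rho (φ.comp ψ) (zpowersHom Aˣ (Units.map (φ : B →* A) w)) hW a
          (Multiplicative.ofAdd 1) := by
      refine Units.ext (Matrix.ext fun i j => ?_)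
      change φ (bmat ψ a.mat w i j) = bmat (φ.comp ψ) a.mat
        ((zpowersHom Aˣ (Units.map (φ : B →* A) w) (Multiplicative.ofAdd 1) : Aˣ) : A) i j
      rw [zpowersHom_apply, toAdd_ofAdd, zpow_one, bmat, bmat, Matrix.add_apply,
        Matrix.add_apply, Matrix.map_apply, Matrix.map_apply, map_add, map_mul, map_sub, map_one]
      congr 1
      by_cases hij : i = j
      · rw [hij, Matrix.one_apply_eq, Matrix.one_apply_eq, map_one]
      · rw [Matrix.one_apply_ne hij, Matrix.one_apply_ne hij, map_zero]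
    rw [e1, ← map_zpow]
    congr 1
    change (Multiplicative.toAdd i • (1 : ℤ) : ℤ) = Multiplicative.toAdd i
    rw [smul_eq_mul, mul_one]
  have hE : a.mat.map (φ.comp ψ) * a.mat.map (φ.comp ψ) = a.mat.map (φ.comp ψ) := by
    rw [← Matrix.map_mul, a.idem]
  have hac : ac.mat.map (φ.comp ψ) = 1 - a.mat.map (φ.comp ψ) := by
    change (1 - a.mat).map (φ.comp ψ) = _
    rw [Matrix.map_sub _ (map_sub (φ.comp ψ)), Matrix.map_one _ (map_zero _) (map_one _)]
  have hD : ∀ x y : A, ((diagonal fun _ : Fin a.n => x) * diagonal fun _ : Fin a.n => y) =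
      diagonal fun _ => x * y := fun x y => Matrix.diagonal_mul_diagonal _ _
  have key := cls_orth (n := n + 1) (rho (φ.comp ψ) (zhom κ (Units.map (φ : B →* A) w) hu) h a)
    (rho (φ.comp ψ) (κ.comp (MonoidHom.fst Γ (Multiplicative ℤ))) h2 ac)
    (zhom (scal a.n κ) (mapGL φ a.n (bU ψ a.mat a.idem w hw))
      (scal_comm φ κ hκ (bU ψ a.mat a.idem w hw))) (a.mat.map (φ.comp ψ)) hE
    (fun x => by
      change _ * bmat (φ.comp ψ) a.mat _ = bmat (φ.comp ψ) a.mat _ * _
      rw [bmat_eq]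
      exact idem_comm _ _ (map_diag_comm _ _ _ (h x)))
    (fun x => by
      change _ * bmat (φ.comp ψ) ac.mat _ = bmat (φ.comp ψ) ac.mat _ * _
      rw [bmat_eq, hac, sub_sub_cancel, mul_add, add_mul, hE, ← mul_assoc, mul_sub, mul_one, hE,
        sub_self, zero_mul, mul_assoc (1 - _), ← map_diag_comm _ _ _ (h2 x), ← mul_assoc, sub_mul,
        one_mul, hE, sub_self, zero_mul])
    (fun x => by
      change bmat (φ.comp ψ) a.mat _ * _ = _
      rw [bmat_eq]
      exact idem_kill _ _ hE (map_diag_comm _ _ _ (h x)))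
    (fun x => by
      change bmat (φ.comp ψ) ac.mat _ * _ = _
      rw [bmat_eq, hac, sub_sub_cancel, add_mul, hE, mul_assoc (1 - _),
        ← map_diag_comm _ _ _ (h2 x), ← mul_assoc, sub_mul, one_mul, hE, sub_self, zero_mul,
        add_zero])
    (fun x => by
      refine Units.ext ?_
      change (diagonal fun _ : Fin a.n => (κ x.1 : A)) *
          ((mapGL φ a.n (bU ψ a.mat a.idem w hw)) ^ (Multiplicative.toAdd x.2) : GLm a.n A).val =
        bmat (φ.comp ψ) a.mat
          ((κ x.1 * (Units.map (φ : B →* A) w) ^ (Multiplicative.toAdd x.2) : Aˣ) : A) *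
          bmat (φ.comp ψ) ac.mat (κ x.1 : A)
      rw [hpow]
      change _ * bmat (φ.comp ψ) a.mat
        (((Units.map (φ : B →* A) w) ^ (Multiplicative.toAdd x.2) : Aˣ) : A) = _
      rw [bmat_eq, bmat_eq, bmat_eq, hac, Units.val_mul, ← hD]
      exact idem_fac _ _ _ hE (map_diag_comm _ _ _ (fun c => hκ x.1 (ψ c)))
        (map_diag_comm _ _ _ (hW x.2)))
    (HG.crz Γ n z)
  rw [key, HG.map_crz_zero (rho (φ.comp ψ) (κ.comp (MonoidHom.fst Γ (Multiplicative ℤ))) h2 ac)
    (fun x => rfl) z, map_zero, add_zero]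

end

section

variable (R : Type u) [Ring R] (n : ℕ) {G : Type v} [Group G] {H : Type*} [Group H]
  {Γ : Type w} [Group Γ]

/-- naturality in the coefficients -/
theorem map_gasm1 {S : Type*} [Ring S] (θ : R →+* S) (f : H →* G) (κ : Γ →* G)
    (h : ∀ γ a, f a * κ γ = κ γ * f a) (x : K1 (MonoidAlgebra R H)) (z : HG Γ n) :
    KQ.map (MonoidAlgebra.mapRingHom G θ) (gasm1 R n f κ h x z) =
      gasm1 S n f κ h (K1.map (MonoidAlgebra.mapRingHom H θ) x) z := by
  have e : (Units.map ((MonoidAlgebra.mapRingHom G θ : MonoidAlgebra R G →+* MonoidAlgebra S G) :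
      MonoidAlgebra R G →* MonoidAlgebra S G)).comp ((grpHom R G).comp κ) =
      (grpHom S G).comp κ := by
    apply MonoidHom.ext
    intro γ
    apply Units.ext
    change MonoidAlgebra.mapRingHom G θ (MonoidAlgebra.single (κ γ) 1) =
      MonoidAlgebra.single (κ γ) 1
    rw [MonoidAlgebra.mapRingHom_single, map_one]
  have e2 : (MonoidAlgebra.mapRingHom G θ).comp (MonoidAlgebra.mapDomainRingHom R f) =
      (MonoidAlgebra.mapDomainRingHom S f).comp (MonoidAlgebra.mapRingHom H θ) :=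
    MonoidAlgebra.mapRingHom_comp_mapDomainRingHom _ _
  have hc : ∀ γ b, ((MonoidAlgebra.mapDomainRingHom S f).comp (MonoidAlgebra.mapRingHom H θ)) b *
      (((grpHom S G).comp κ) γ : MonoidAlgebra S G) = ((grpHom S G).comp κ) γ *
        ((MonoidAlgebra.mapDomainRingHom S f).comp (MonoidAlgebra.mapRingHom H θ)) b :=
    fun γ b => grpHom_comm S f κ h γ _
  have hc' : ∀ γ b, ((MonoidAlgebra.mapRingHom G θ).comp (MonoidAlgebra.mapDomainRingHom R f)) b *
      (((Units.map ((MonoidAlgebra.mapRingHom G θ : MonoidAlgebra R G →+* MonoidAlgebra S G) :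
        MonoidAlgebra R G →* MonoidAlgebra S G)).comp ((grpHom R G).comp κ)) γ :
          MonoidAlgebra S G) =
      ((Units.map ((MonoidAlgebra.mapRingHom G θ : MonoidAlgebra R G →+* MonoidAlgebra S G) :
        MonoidAlgebra R G →* MonoidAlgebra S G)).comp ((grpHom R G).comp κ)) γ *
          ((MonoidAlgebra.mapRingHom G θ).comp (MonoidAlgebra.mapDomainRingHom R f)) b := by
    rw [e, e2]
    exact hc
  exact (map_asm1 _ _ _ _ hc' x z).trans ((asm1_congr e2 e _ hc x z).trans
    (asm1_comp _ _ _ _ _ x z).symm)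

end

end Pool.Agent.H16.FU
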