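import Pool.Agent.H13.TFQ.H16.FU.Asm1
import Pool.Agent.H13.TFQ.H71.FQ.Asm

/-!
# Project FU: the product `K₁(B) × H_{n+1}(Γ) → KQ A (n + 1)`

For a ring homomorphism `φ : B → A` and a homomorphism `κ : Γ → Aˣ` with values commuting with the image of `φ`, an
invertible matrix `U` over `B` and `z ∈ H_{n+1}(Γ)` give the product of the image of `z` under the scalar matrices
`κ γ` with the element `φ(U)` of `GL_N(A)` (`HG.cr`).

PROOFS. `asm1`: additivity is `HG.cr_mul`; stability: `HG.cr` for `Γ → GL_N(A) × GL_1(A)` and `(U, 1)`, `KQ.cls_blk`,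
`HG.map_cr`, `HG.cr_one`. `cls_orth`: with `E` the idempotent, the matrix with blocks `E, 1 - E; 1 - E, E` is its own
inverse and conjugates `f g ⊕ 1` to `f ⊕ g` (`KQ.cls_congr`; first `KQ.cls_sum`-type additivity `cls_add`).
`asm1_bass`: with the homomorphisms `(γ, i) ↦ κ γ (1 + e (w ^ i - 1))`, `1 + e (κ γ w ^ i - 1)` and
`e + (1 - e) κ γ` of `Γ × ℤ` (`HG.cr_eq_map`, `cls_orth`, `HG.map_crz_zero`).
-/

set_option autoImplicit false

open Matrix

universe u v w

namespace Pool.Agent.H16.FU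

open Pool.Agent.H71.FQ
open Pool.Agent.H71.FJ (MatEquiv IdemMat K0 K0.mk K0.lift K0.lift_mk K0.hom_ext K0.map)
open Pool.Agent.H71.DB (bmat bU bmat_mul bmat_one bass bass_mk)
open Pool.Agent.H95.WH (K1 K1.mk K1.lift K1.lift_mk K1.hom_ext K1.map K1.map_mk stab)

section

end

section

end

section

variable (R : Type u) [Ring R] (n : ℕ) {G : Type v} [Group G] {H : Type*} [Group H]
  {Γ : Type w} [Group Γ]

/-- The product `K₁(R[H]) × H_{n+1}(Γ) → KQ (R[G]) (n + 1)` for commuting homomorphisms `f : H → G`, `κ : Γ → G`. -/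
noncomputable def gasm1 (f : H →* G) (κ : Γ →* G) (h : ∀ γ a, f a * κ γ = κ γ * f a) :
    K1 (MonoidAlgebra R H) →+ (HG Γ n →+ KQ (MonoidAlgebra R G) (n + 1)) :=
  asm1 n (MonoidAlgebra.mapDomainRingHom R f) ((grpHom R G).comp κ) (grpHom_comm R f κ h)

theorem gasm1_comp {H' : Type*} [Group H'] (f : H →* G) (ψ : H' →* H) (κ : Γ →* G)
    (h : ∀ γ a, f a * κ γ = κ γ * f a) (h' : ∀ γ a, (f.comp ψ) a * κ γ = κ γ * (f.comp ψ) a)
    (x : K1 (MonoidAlgebra R H')) (z : HG Γ n) :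
    gasm1 R n f κ h (K1.map (MonoidAlgebra.mapDomainRingHom R ψ) x) z =
      gasm1 R n (f.comp ψ) κ h' x z := by
  have e : (MonoidAlgebra.mapDomainRingHom R f).comp (MonoidAlgebra.mapDomainRingHom R ψ) =
      MonoidAlgebra.mapDomainRingHom R (f.comp ψ) := (MonoidAlgebra.mapDomainRingHom_comp _ _).symm
  have hc : ∀ γ c, ((MonoidAlgebra.mapDomainRingHom R f).comp
      (MonoidAlgebra.mapDomainRingHom R ψ)) c * (((grpHom R G).comp κ) γ : MonoidAlgebra R G) =
      ((grpHom R G).comp κ) γ * ((MonoidAlgebra.mapDomainRingHom R f).comp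
        (MonoidAlgebra.mapDomainRingHom R ψ)) c := by
    rw [e]
    exact grpHom_comm R (f.comp ψ) κ h'
  exact (asm1_comp _ _ _ _ hc x z).trans (asm1_congr e rfl _ _ x z)

theorem gasm1_map {Γ' : Type*} [Group Γ'] (f : H →* G) (κ : Γ →* G) (ψ : Γ' →* Γ)
    (h : ∀ γ a, f a * κ γ = κ γ * f a) (h' : ∀ γ a, f a * (κ.comp ψ) γ = (κ.comp ψ) γ * f a)
    (x : K1 (MonoidAlgebra R H)) (z : HG Γ' n) :
    gasm1 R n f κ h x (HG.map n ψ z) = gasm1 R n f (κ.comp ψ) h' x z := by
  exact asm1_map _ ((grpHom R G).comp κ) _ ψ (grpHom_comm R f (κ.comp ψ) h') x z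

theorem gasm1_conj (f f' : H →* G) (κ κ' : Γ →* G) (g : G) (h : ∀ γ a, f a * κ γ = κ γ * f a)
    (h' : ∀ γ a, f' a * κ' γ = κ' γ * f' a) (hf : ∀ a, f' a = g * f a * g⁻¹)
    (hκ : ∀ γ, κ' γ = g * κ γ * g⁻¹) (x : K1 (MonoidAlgebra R H)) (z : HG Γ n) :
    gasm1 R n f' κ' h' x z = gasm1 R n f κ h x z := by
  have ginv : (((grpHom R G g)⁻¹ : (MonoidAlgebra R G)ˣ) : MonoidAlgebra R G) =
      MonoidAlgebra.single g⁻¹ 1 := by
    rw [← map_inv]
    rfl
  refine asm1_conj _ _ _ _ (grpHom R G g) _ _ (fun b => ?_) (fun γ => ?_) x z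
  · rw [ginv]
    induction b using MonoidAlgebra.induction_linear with
    | zero => simp
    | add a b ha hb => rw [map_add, ha, hb, map_add, mul_add, add_mul]
    | single a r =>
      change MonoidAlgebra.mapDomain f' (MonoidAlgebra.single a r) = MonoidAlgebra.single g 1 *
        MonoidAlgebra.mapDomain f (MonoidAlgebra.single a r) * MonoidAlgebra.single g⁻¹ 1
      rw [MonoidAlgebra.mapDomain_single, MonoidAlgebra.mapDomain_single,
        MonoidAlgebra.single_mul_single, MonoidAlgebra.single_mul_single, hf, mul_one, one_mul]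
  · rw [MonoidHom.comp_apply, MonoidHom.comp_apply, hκ, map_mul, map_mul, map_inv]

end

end Pool.Agent.H16.FU
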