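import Pool.Agent.H13.TFQ.H16.FU.Fin1
import Pool.Agent.H13.TFQ.H71.FQ.Main_1
import Pool.Agent.H13.TFQ.M69

/-!
# Project FU: the main theorem for fields of positive characteristic

PROOFS. `torsion1_fg`: `exists_gen01` gives `e` and `m`; `k' = CyclotomicField e k` is finitely generated
(`FGF.cyclotomic`: the images of the generators of `k` and a primitive root of unity), `F` the subfield of the elements
algebraic over `F_p` (`zero_or_root`), `enoughVal_fg`, `map_assembly1`, `torsion_closure`, `hn1_torsion`.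
`torsion0`: `vanOn_assembly1` and `torsion_of_vanOn` for the context `ctxC (algebraMap k (AlgebraicClosure k))`: a
multiple of `assemblyN w₀` is minus a multiple of `assembly1 w₁`. `main_fg`: `torsion0` then `torsion1_fg`
(`ratInj_of` of FQ/Main.lean). `main`: `ratInj01_of_local` with `R' = Subfield.closure S`.
-/

set_option autoImplicit false

open Matrix

universe t u v w

namespace Pool.Agent.H16.FU

open Pool.Agent.H71.FQ
open Pool.Agent.H71.FJ (K0 K0.mk Sat Sat_of_smul mem_Sat)
open Pool.Agent.H95.WH (K1 K1.mk K1.unit K1.map K1.map_mk K1.map_map FamSub conjHom FinSub)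

/-- finitely generated fields -/
def FGF (k : Type u) [Field k] : Prop := ∃ S : Finset k, Subfield.closure (S : Set k) = ⊤

theorem FGF.cyclotomic {k : Type u} [Field k] (h : FGF k) (e : ℕ) [NeZero (e : k)] :
    FGF (CyclotomicField e k) := by
  classical
  obtain ⟨S, hS⟩ := h
  have he : NeZero e := NeZero.of_neZero_natCast k
  obtain ⟨L, hL⟩ : ∃ L : Type u, L = CyclotomicField e k := ⟨_, rfl⟩
  let ζ : CyclotomicField e k := IsCyclotomicExtension.zeta e k (CyclotomicField e k)
  have hζ : IsPrimitiveRoot ζ e := IsCyclotomicExtension.zeta_spec e k (CyclotomicField e k)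
  have htop : Algebra.adjoin k {ζ} = ⊤ :=
    IsCyclotomicExtension.adjoin_primitive_root_eq_top hζ
  refine ⟨insert ζ (S.image (algebraMap k (CyclotomicField e k))), ?_⟩
  set U := Subfield.closure
    ((insert ζ (S.image (algebraMap k (CyclotomicField e k))) : Finset (CyclotomicField e k)) :
      Set (CyclotomicField e k)) with hU
  have h1 : ∀ a : k, algebraMap k (CyclotomicField e k) a ∈ U := by
    intro a
    have h2 : Subfield.closure (S : Set k) ≤ U.comap (algebraMap k (CyclotomicField e k)) := by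
      rw [Subfield.closure_le]
      intro s hs
      rw [SetLike.mem_coe, Subfield.mem_comap]
      apply Subfield.subset_closure
      rw [Finset.coe_insert, Finset.coe_image]
      exact Or.inr ⟨s, hs, rfl⟩
    rw [hS] at h2
    exact h2 (Subfield.mem_top a)
  have h2 : ζ ∈ U := by
    apply Subfield.subset_closure
    rw [Finset.coe_insert]
    exact Or.inl rfl
  rw [eq_top_iff]
  intro x _
  have hx : x ∈ Algebra.adjoin k {ζ} := by
    rw [htop]
    exact Algebra.mem_top
  induction hx using Algebra.adjoin_induction with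
  | mem x hx =>
    rw [Set.mem_singleton_iff] at hx
    rw [hx]
    exact h2
  | algebraMap a => exact h1 a
  | add x y _ _ hx hy => exact add_mem (hx trivial) (hy trivial)
  | mul x y _ _ hx hy => exact mul_mem (hx trivial) (hy trivial)

section

variable (p : ℕ) [Fact p.Prime] {k : Type u} [Field k] [CharP k p] {G : Type v} [Group G] (r : ℕ)
  (hG : ∀ g : G, (∃ j : ℕ, g ^ p ^ j = 1) → g ^ p ^ r = 1) {n : ℕ}

include hG in
theorem torsion1_fg (hk : FGF k) (hsep : ∀ C : Subgroup G, Finite C → IsCyclic C →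
      ¬ p ∣ Nat.card C → PSep p (Subgroup.centralizer (C : Set G)) n)
    (w : HnK1 k G n) (M : ℤ) (hM : M ≠ 0) (h : M • assembly1 k n G w = 0) :
    ∃ m : ℤ, m ≠ 0 ∧ m • w = 0 := by
  obtain ⟨e, he, m, hm, hgen⟩ := exists_gen01 p w
  have he' : (e : k) ≠ 0 := fun h0 => he ((CharP.cast_eq_zero_iff k p e).1 h0)
  have : NeZero (e : k) := ⟨he'⟩
  have he0 : e ≠ 0 := fun h0 => he' (by rw [h0, Nat.cast_zero])
  have : NeZero e := ⟨he0⟩
  let k' := CyclotomicField e k
  have : IsCyclotomicExtension {e} k k' := CyclotomicField.isCyclotomicExtension e k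
  have hfin : Module.Finite k k' := IsCyclotomicExtension.finiteDimensional {e} k k'
  obtain ⟨S, hS⟩ := FGF.cyclotomic hk e
  have hck : CharP k' p := charP_of_injective_algebraMap (algebraMap k k').injective p
  have hEV : EnoughVal p k' := enoughVal_fg p k' S hS
  let _ : Algebra (ZMod p) k' := ZMod.algebra k' p
  let F : IntermediateField (ZMod p) k' := algebraicClosure (ZMod p) k'
  have hcF : CharP F p := charP_of_injective_algebraMap (algebraMap (ZMod p) F).injective p
  have hF : ∀ a : F, a = 0 ∨ ∃ m : ℕ, 0 < m ∧ a ^ m = 1 := by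
    intro a
    rcases zero_or_root (a : k') (mem_algebraicClosure_iff.1 a.2) with h0 | ⟨m, hm, h1⟩
    · exact Or.inl (Subtype.ext h0)
    · exact Or.inr ⟨m, hm, Subtype.ext h1⟩
  have hz : IsPrimitiveRoot (IsCyclotomicExtension.zeta e k k') e := IsCyclotomicExtension.zeta_spec e k k'
  have hzF : IsCyclotomicExtension.zeta e k k' ∈ F := by
    refine mem_algebraicClosure_iff.2 (IsAlgebraic.of_pow (n := e) (Nat.pos_of_ne_zero he0) ?_)
    rw [hz.pow_eq_one]
    exact isAlgebraic_one
  let ζ : F := ⟨IsCyclotomicExtension.zeta e k k', hzF⟩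
  have hζ : IsPrimitiveRoot ζ e := by
    refine IsPrimitiveRoot.of_map_of_injective (f := algebraMap F k') ?_ (algebraMap F k').injective
    exact hz
  have hw := hgen (algebraMap k k') (algebraMap F k') ζ hζ
  have h1 : M • assembly1 k' n G (m • hn1 (algebraMap k k') w) = 0 := by
    rw [map_zsmul, ← map_assembly1, smul_comm, ← map_zsmul, h, map_zero, smul_zero]
  obtain ⟨m₂, hm₂, h2⟩ := torsion_closure p hF (algebraMap F k') hEV r hG hsep _ hw M hM h1
  exact hn1_torsion k k' w (m₂ * m) (mul_ne_zero hm₂ hm) (by rw [mul_smul]; exact h2)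

include hG in
theorem torsion0 (hsep : ∀ C : Subgroup G, Finite C → IsCyclic C →
      ¬ p ∣ Nat.card C → PSep p (Subgroup.centralizer (C : Set G)) (n + 1))
    (w₀ : HnK0 k G (n + 1)) (w₁ : HnK1 k G n) (M : ℤ) (hM : M ≠ 0)
    (h : M • assembly01 k n G (w₀, w₁) = 0) : ∃ m : ℤ, m ≠ 0 ∧ m • w₀ = 0 := by
  let K := AlgebraicClosure k
  have : CharP K p := charP_of_injective_algebraMap (algebraMap k K).injective p
  have : PerfectRing K p := PerfectField.toPerfectRing p
  let X : Ctx k K G := ctxC p r hG (algebraMap k K)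
  have h1 : VanOn X (fun _ => True) (assembly1 k n G w₁) := vanOn_assembly1 X w₁
  have h2 : M • assemblyN k (n + 1) G w₀ = - (M • assembly1 k n G w₁) := by
    have h3 : assembly01 k n G (w₀, w₁) = assemblyN k (n + 1) G w₀ + assembly1 k n G w₁ := rfl
    rw [h3, smul_add] at h
    exact eq_neg_of_add_eq_zero_left h
  have h4 : VanOn X (fun _ => True) (assemblyN k (n + 1) G w₀) := by
    apply VanOn.of_smul hM
    rw [h2]
    exact (h1.smul M).neg
  exact torsion_of_vanOn X (fun D hD ho b hb => hsep_of_psep p r hG (algebraMap k K) hsep D hD ho b hb) w₀ h4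

include hG in
theorem main_fg (hk : FGF k) (hsep : ∀ C : Subgroup G, Finite C → IsCyclic C →
      ¬ p ∣ Nat.card C → PSep p (Subgroup.centralizer (C : Set G)) n ∧
        PSep p (Subgroup.centralizer (C : Set G)) (n + 1)) :
    RatInj (assembly01 k n G) := by
  apply ratInj_of
  rintro ⟨w₀, w₁⟩ M hM h
  obtain ⟨m₀, hm₀, h0⟩ := torsion0 p r hG (fun C h1 h2 h3 => (hsep C h1 h2 h3).2) w₀ w₁ M hM h
  have h1 : (m₀ * M) • assembly1 k n G w₁ = 0 := by
    have h3 : assembly01 k n G (w₀, w₁) = assemblyN k (n + 1) G w₀ + assembly1 k n G w₁ := rfl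
    have h4 : (m₀ * M) • assemblyN k (n + 1) G w₀ = 0 := by
      rw [mul_comm, mul_smul, ← map_zsmul, h0, map_zero, smul_zero]
    have h5 : (m₀ * M) • (assemblyN k (n + 1) G w₀ + assembly1 k n G w₁) = 0 := by
      rw [← h3, mul_smul, h, smul_zero]
    rw [smul_add, h4, zero_add] at h5
    exact h5
  obtain ⟨m₁, hm₁, h2⟩ := torsion1_fg p r hG hk (fun C h1 h2 h3 => (hsep C h1 h2 h3).1) w₁ (m₀ * M)
    (mul_ne_zero hm₀ hM) h1
  refine ⟨m₁ * m₀, mul_ne_zero hm₁ hm₀, Prod.ext ?_ ?_⟩
  · show (m₁ * m₀) • w₀ = 0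
    rw [mul_smul, h0, smul_zero]
  · show (m₁ * m₀) • w₁ = 0
    rw [mul_comm, mul_smul, h2, smul_zero]

end

theorem FGF.closure {k : Type u} [Field k] (S : Finset k) : FGF (Subfield.closure (S : Set k)) := by
  classical
  refine ⟨S.attach.image fun s => ⟨s.1, Subfield.subset_closure s.2⟩, ?_⟩
  rw [eq_top_iff]
  rintro ⟨x, hx⟩ -
  induction hx using Subfield.closure_induction with
  | mem x hx =>
    refine Subfield.subset_closure ?_
    rw [Finset.coe_image, Set.mem_image]
    exact ⟨⟨x, hx⟩, Finset.mem_coe.2 (Finset.mem_attach S _), rfl⟩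
  | one => exact one_mem _
  | add x y hx hy hx' hy' => exact add_mem hx' hy'
  | neg x hx h => exact neg_mem h
  | inv x hx h => exact inv_mem h
  | mul x y hx hy hx' hy' => exact mul_mem hx' hy'

/-- **Rational injectivity on the `K₀`-part and the `K₁`-part for all fields of characteristic `p`.** -/
theorem main (p : ℕ) [Fact p.Prime] (k : Type u) [Field k] [CharP k p] (G : Type v) [Group G]
    (r : ℕ) (hG : ∀ g : G, (∃ j : ℕ, g ^ p ^ j = 1) → g ^ p ^ r = 1) (n : ℕ)
    (hsep : ∀ C : Subgroup G, Finite C → IsCyclic C → ¬ p ∣ Nat.card C →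
      PSep p (Subgroup.centralizer (C : Set G)) n ∧
        PSep p (Subgroup.centralizer (C : Set G)) (n + 1)) :
    RatInj (assembly01 k n G) := by
  apply ratInj01_of_local
  intro S
  refine ⟨Subfield.closure (S : Set k), inferInstance, (Subfield.closure (S : Set k)).subtype,
    Subtype.val_injective, ?_, ?_⟩
  · intro s hs
    exact ⟨⟨s, Subfield.subset_closure hs⟩, rfl⟩
  · have : CharP (Subfield.closure (S : Set k)) p :=
      (RingHom.charP_iff (Subfield.closure (S : Set k)).subtype Subtype.val_injective p).2 inferInstance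
    exact main_fg p r hG (FGF.closure S) hsep

end Pool.Agent.H16.FU
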