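import Pool.Agent.H13.TFQ.M26

/-!
# Project FU: the functionals for Laurent series

`G' = G × ℤ`. The matrices over `B[G']` are compared with the matrices over `K((t))[G]`: `Appr R b X` says that the
coefficients of `b` at `(g, d)`, `d < R`, are lifts of the coefficients of `X` at `g` and `t ^ d`. For tuples of matrices
`X j` over `K((t))[G]`, bounded below by `-M`, and approximations `b j` up to degree `R > k q M`, the value `TB (c, 0) Φ b`
does not depend on the approximations (`TL`).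

PROOFS. `TB_deg`: by multilinearity (`TB` is `lam` of a power of a product of the `io j (b j)`; all words are products of
`k * q` letters, `k` the number of the matrices): a word with a letter of degree `≥ R` and `k q - 1` letters of degree
`≥ -M` has a product of positive degree, which is not conjugate to `(c, 0)`, so `wf` vanishes (`wf_of_prd`); an
efficient way: `lam_congr`-like comparison of `lam (wf …)` on the powers of the products of `io j (b j)` and
`io j (b0 j)` modulo the additive subgroup of the elements of `FR` all whose words have product of positive degree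
(an element of the span of products of `k q` homogeneous elements).
`appr_congr`: `b' - b = p • d + e`, `d` supported in degrees `< R`, `e` in degrees `≥ R`. `TL_eq`: compare with
approximations with `R` very large, see the comment there. `TL_merge…`: `TB_merge…` for good approximations and `appr_mul`.
-/

set_option autoImplicit false

open Matrix

universe u v w

namespace Pool.Agent.H16.FU

open Pool.Agent.H71.FQ

section

variable {B : Type w} [CommRing B] {G : Type v} [Group G] {ι : Type*}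

/-- the entries of the matrix are supported in degrees `≥ M` -/
def Dge (M : ℤ) (b : Matrix ι ι (MonoidAlgebra B (G × Multiplicative ℤ))) : Prop :=
  ∀ i j (x : G × Multiplicative ℤ), (b i j).coeff x ≠ 0 → M ≤ Multiplicative.toAdd x.2

theorem Dge.mono {M M' : ℤ} (h : M' ≤ M) {b : Matrix ι ι (MonoidAlgebra B (G × Multiplicative ℤ))}
    (hb : Dge M b) : Dge M' b := fun i j x hx => h.trans (hb i j x hx)

theorem Dge.add {M : ℤ} {b b' : Matrix ι ι (MonoidAlgebra B (G × Multiplicative ℤ))}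
    (hb : Dge M b) (hb' : Dge M b') : Dge M (b + b') := by
  intro i j x hx
  rw [Matrix.add_apply, MonoidAlgebra.coeff_add, Finsupp.add_apply] at hx
  by_cases h1 : (b i j).coeff x = 0
  · rw [h1, zero_add] at hx
    exact hb' i j x hx
  · exact hb i j x h1

theorem Dge.mul [Fintype ι] {M M' : ℤ} {b b' : Matrix ι ι (MonoidAlgebra B (G × Multiplicative ℤ))}
    (hb : Dge M b) (hb' : Dge M' b') : Dge (M + M') (b * b') := by
  classical
  intro i j x hx
  rw [Matrix.mul_apply, MonoidAlgebra.coeff_sum, Finsupp.finsetSum_apply] at hx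
  obtain ⟨l, -, hl⟩ := Finset.exists_ne_zero_of_sum_ne_zero hx
  obtain ⟨y, hy, z, hz, rfl⟩ := Finset.mem_mul.1
    (MonoidAlgebra.support_coeff_mul_subset (b i l) (b' l j) (Finsupp.mem_support_iff.2 hl))
  have h1 := hb i l y (Finsupp.mem_support_iff.1 hy)
  have h2 := hb' l j z (Finsupp.mem_support_iff.1 hz)
  rw [Prod.snd_mul, toAdd_mul]
  exact add_le_add h1 h2

theorem Dge.nsmul {M : ℤ} (n : ℕ) {b : Matrix ι ι (MonoidAlgebra B (G × Multiplicative ℤ))}
    (hb : Dge M b) : Dge M (n • b) := by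
  intro i j x hx
  rw [Matrix.smul_apply, MonoidAlgebra.coeff_smul, Finsupp.smul_apply] at hx
  exact hb i j x fun h0 => hx (by rw [h0, smul_zero])

/-- the products of the words of `X` have degree `≥ N` -/
def WGe [Fintype ι] [DecidableEq ι] (N : ℤ) (X : FR (G × Multiplicative ℤ) ι B) : Prop :=
  ∀ W ∈ X.coeff.support, N ≤ Multiplicative.toAdd (prd W).2

section WGe

variable [Fintype ι] [DecidableEq ι]

theorem WGe.mono {N N' : ℤ} (h : N' ≤ N) {X : FR (G × Multiplicative ℤ) ι B} (hX : WGe N X) :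
    WGe N' X := fun W hW => h.trans (hX W hW)

theorem WGe.zero (N : ℤ) : WGe N (0 : FR (G × Multiplicative ℤ) ι B) := by
  intro W hW
  rw [MonoidAlgebra.coeff_zero, Finsupp.support_zero] at hW
  exact absurd hW (Finset.notMem_empty W)

theorem WGe.one : WGe 0 (1 : FR (G × Multiplicative ℤ) ι B) := by
  intro W hW
  rw [mem_support_one hW, map_one]
  exact le_rfl

theorem WGe.add {N : ℤ} {X Y : FR (G × Multiplicative ℤ) ι B} (hX : WGe N X) (hY : WGe N Y) :
    WGe N (X + Y) := by
  classical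
  intro W hW
  rw [MonoidAlgebra.coeff_add] at hW
  rcases Finset.mem_union.1 (Finsupp.support_add hW) with h | h
  · exact hX W h
  · exact hY W h

theorem WGe.mul {N N' : ℤ} {X Y : FR (G × Multiplicative ℤ) ι B} (hX : WGe N X) (hY : WGe N' Y) :
    WGe (N + N') (X * Y) := by
  intro W hW
  obtain ⟨V, hV, V', hV', rfl⟩ := mem_support_mul hW
  rw [map_mul, Prod.snd_mul, toAdd_mul]
  exact add_le_add (hX V hV) (hY V' hV')

theorem WGe.io {N : ℤ} (l : ℕ) {b : Matrix ι ι (MonoidAlgebra B (G × Multiplicative ℤ))}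
    (hb : Dge N b) : WGe N (io l b : FR (G × Multiplicative ℤ) ι B) := by
  intro W hW
  obtain ⟨x, rfl⟩ := io_support l b hW
  rw [prd_let1]
  rw [Finsupp.mem_support_iff, io_coeff] at hW
  by_contra h
  apply hW
  ext i j
  by_contra h1
  exact h (hb i j x h1)

/-- the products of the `x j` and of the `y j` -/
theorem WGe.list {M : ℤ} {R : ℤ} (hMR : -M ≤ R) {k : ℕ} (x y : Fin k → FR (G × Multiplicative ℤ) ι B)
    (hM : 0 ≤ M) (hy : ∀ j, WGe (-M) (y j)) (hd : ∀ j, ∃ d, x j = y j + d ∧ WGe R d) :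
    WGe (-(k * M)) (List.ofFn y).prod ∧
      ∃ d, (List.ofFn x).prod = (List.ofFn y).prod + d ∧ WGe (R - k * M) d := by
  induction k with
  | zero =>
    rw [List.ofFn_zero, List.ofFn_zero]
    refine ⟨?_, 0, (add_zero _).symm, WGe.zero _⟩
    simpa using WGe.one
  | succ k ih =>
    obtain ⟨h1, d, h2, h3⟩ := ih (fun j => x j.castSucc) (fun j => y j.castSucc)
      (fun j => hy j.castSucc) (fun j => hd j.castSucc)
    obtain ⟨e, h4, h5⟩ := hd (Fin.last k)
    rw [List.ofFn_succ', List.concat_eq_append, List.prod_append, List.prod_singleton,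
      List.ofFn_succ', List.concat_eq_append, List.prod_append, List.prod_singleton]
    have h6 : WGe (-M) (y (Fin.last k)) := hy _
    refine ⟨(h1.mul h6).mono (by push_cast; linarith), ?_⟩
    refine ⟨d * x (Fin.last k) + (List.ofFn fun j => y j.castSucc).prod * e, ?_, ?_⟩
    · rw [h2, h4]
      noncomm_ring
    · have h7 : WGe (-M) (x (Fin.last k)) := by
        rw [h4]
        exact h6.add (h5.mono hMR)
      refine WGe.add ((h3.mul h7).mono (by push_cast; linarith)) ((h1.mul h5).mono ?_)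
      push_cast
      linarith

/-- the powers of `X` and of `Y` -/
theorem WGe.pow {N R : ℤ} {X Y : FR (G × Multiplicative ℤ) ι B}
    (hX : WGe (-N) X) (hY : WGe (-N) Y) (hd : ∃ d, X = Y + d ∧ WGe (R - N) d) (q : ℕ) :
    WGe (-(q * N)) (Y ^ q) ∧ ∃ d, X ^ q = Y ^ q + d ∧ WGe (R - q * N) d := by
  induction q with
  | zero =>
    rw [pow_zero, pow_zero]
    refine ⟨?_, 0, (add_zero _).symm, WGe.zero _⟩
    simpa using WGe.one
  | succ q ih =>
    obtain ⟨h1, d, h2, h3⟩ := ih
    obtain ⟨e, h4, h5⟩ := hd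
    refine ⟨?_, d * X + Y ^ q * e, ?_, ?_⟩
    · rw [pow_succ]
      exact (h1.mul hY).mono (by push_cast; linarith)
    · rw [pow_succ, pow_succ, h2, add_mul]
      nth_rewrite 1 [h4]
      rw [mul_add, add_assoc, add_comm (Y ^ q * e)]
    · refine WGe.add ((h3.mul hX).mono (by push_cast; linarith)) ((h1.mul h5).mono ?_)
      push_cast
      linarith

end WGe

/-- **Letters of high degree do not matter.** -/
theorem TB_deg [Fintype ι] [DecidableEq ι] {k q : ℕ} (c : G)
    (Φ : (Fin k → Fin q → G × Multiplicative ℤ) → B) (M : ℕ) (R : ℤ) (hR : (k * q * M : ℕ) < R)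
    (b e : Fin k → Matrix ι ι (MonoidAlgebra B (G × Multiplicative ℤ)))
    (hb : ∀ j, Dge (-(M : ℤ)) (b j)) (he : ∀ j, Dge R (e j)) :
    TB (c, (1 : Multiplicative ℤ)) Φ (fun j => b j + e j) = TB (c, 1) Φ b := by
  have hM : (0 : ℤ) ≤ M := Int.natCast_nonneg M
  have hR0 : (0 : ℤ) < R := lt_of_le_of_lt (Int.natCast_nonneg _) hR
  have hMR : -(M : ℤ) ≤ R := by linarith
  obtain ⟨h1, d, h2, h3⟩ := WGe.list (M := (M : ℤ)) (R := R) hMR
    (fun j : Fin k => (io (j : ℕ) (b j + e j) : FR (G × Multiplicative ℤ) ι B))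
    (fun j : Fin k => (io (j : ℕ) (b j) : FR (G × Multiplicative ℤ) ι B)) hM
    (fun j => WGe.io _ (hb j)) (fun j => ⟨io (j : ℕ) (e j), map_add _ _ _, WGe.io _ (he j)⟩)
  have h4 : WGe (-(k * M)) (List.ofFn fun j : Fin k =>
      (io (j : ℕ) (b j + e j) : FR (G × Multiplicative ℤ) ι B)).prod := by
    rw [h2]
    exact h1.add (h3.mono (by linarith))
  obtain ⟨-, d', h5, h6⟩ := WGe.pow (N := k * M) (R := R) h4 h1 ⟨d, h2, h3⟩ q
  unfold TB
  rw [h5, map_add, add_eq_left]
  have h7 : ∀ W ∈ d'.coeff.support, wf (c, (1 : Multiplicative ℤ)) Φ (fun j : Fin k => (j : ℕ)) W = 0 := by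
    intro W hW
    refine wf_of_prd _ _ _ fun y hy => ?_
    have h8 := h6 W hW
    have h9 := congrArg (fun z : G × Multiplicative ℤ => Multiplicative.toAdd z.2) hy
    simp only [Prod.snd_mul, Prod.snd_inv, toAdd_mul, toAdd_inv, toAdd_one] at h9
    have h10 : ((k * q * M : ℕ) : ℤ) = q * (k * M) := by
      push_cast
      ring
    rw [h10] at hR
    linarith
  rw [lam_congr (Ψ' := fun _ => 0) h7, lam_apply]
  simp

end

section

variable {K : Type u} [Field K] {p m : ℕ} (L : LD K p m) {G : Type v} [Group G] {ι : Type*}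

/-- the coefficients of the matrix vanish in degrees `< M` -/
def Oge (M : ℤ) (X : Matrix ι ι (MonoidAlgebra (LaurentSeries K) G)) : Prop :=
  ∀ i j g (d : ℤ), d < M → ((X i j).coeff g).coeff d = 0

theorem Oge.mono {M M' : ℤ} (h : M' ≤ M) {X : Matrix ι ι (MonoidAlgebra (LaurentSeries K) G)}
    (hX : Oge M X) : Oge M' X := fun i j g d hd => hX i j g d (hd.trans_le h)

/-- the order of the coefficients of an element is bounded below -/
theorem exists_oge_elt (x : MonoidAlgebra (LaurentSeries K) G) :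
    ∃ M : ℕ, ∀ g (d : ℤ), d < -(M : ℤ) → (x.coeff g).coeff d = 0 := by
  classical
  refine ⟨∑ g ∈ x.coeff.support, (-(x.coeff g).order).toNat, fun g d hd => ?_⟩
  by_cases hg : x.coeff g = 0
  · rw [hg, HahnSeries.coeff_zero]
  · refine HahnSeries.coeff_eq_zero_of_lt_order (hd.trans_le ?_)
    have h1 : (-(x.coeff g).order).toNat ≤ ∑ g ∈ x.coeff.support, (-(x.coeff g).order).toNat :=
      Finset.single_le_sum (f := fun g => (-(x.coeff g).order).toNat) (fun _ _ => Nat.zero_le _)
        (Finsupp.mem_support_iff.2 hg)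
    have h2 := Int.self_le_toNat (-(x.coeff g).order)
    have h3 := Int.ofNat_le.2 h1
    linarith

theorem exists_oge [Finite ι] (X : Matrix ι ι (MonoidAlgebra (LaurentSeries K) G)) :
    ∃ M : ℕ, Oge (-(M : ℤ)) X := by
  classical
  have := Fintype.ofFinite ι
  have h0 : ∀ i j, ∃ M : ℕ, ∀ g (d : ℤ), d < -(M : ℤ) → ((X i j).coeff g).coeff d = 0 :=
    fun i j => exists_oge_elt (X i j)
  choose M hM using h0
  refine ⟨∑ i, ∑ j, M i j, fun i j g d hd => hM i j g d (hd.trans_le ?_)⟩
  have h1 : M i j ≤ ∑ j, M i j :=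
    Finset.single_le_sum (f := fun j => M i j) (fun _ _ => Nat.zero_le _) (Finset.mem_univ j)
  have h2 : ∑ j, M i j ≤ ∑ i, ∑ j, M i j :=
    Finset.single_le_sum (f := fun i => ∑ j, M i j) (fun _ _ => Nat.zero_le _) (Finset.mem_univ i)
  exact neg_le_neg (Int.ofNat_le.2 (h1.trans h2))

/-- `b` lifts the coefficients of `X` in degrees `< R`. -/
def Appr (R : ℤ) (b : Matrix ι ι (MonoidAlgebra L.B (G × Multiplicative ℤ)))
    (X : Matrix ι ι (MonoidAlgebra (LaurentSeries K) G)) : Prop :=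
  ∀ i j g (d : ℤ), d < R → L.π ((b i j).coeff (g, Multiplicative.ofAdd d)) =
    ((X i j).coeff g).coeff d

theorem exists_appr [Finite ι] (M : ℤ) (X : Matrix ι ι (MonoidAlgebra (LaurentSeries K) G))
    (hX : Oge M X) (R : ℤ) : ∃ b, Appr L R b X ∧ Dge M b := by
  classical
  let s : K → L.B := fun k => if k = 0 then 0 else (L.surj k).choose
  have hs0 : s 0 = 0 := if_pos rfl
  have hs : ∀ k, L.π (s k) = k := by
    intro k
    by_cases hk : k = 0
    · subst hk
      rw [hs0, map_zero]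
    · have h1 : s k = (L.surj k).choose := if_neg hk
      rw [h1]
      exact (L.surj k).choose_spec
  let f : ι → ι → G × Multiplicative ℤ → L.B := fun i j y =>
    if M ≤ Multiplicative.toAdd y.2 ∧ Multiplicative.toAdd y.2 < R then
      s (((X i j).coeff y.1).coeff (Multiplicative.toAdd y.2)) else 0
  have hf : ∀ i j y, f i j y ≠ 0 →
      y ∈ (X i j).coeff.support ×ˢ (Finset.Ico M R).image Multiplicative.ofAdd := by
    intro i j y hy
    have h1 : M ≤ Multiplicative.toAdd y.2 ∧ Multiplicative.toAdd y.2 < R := by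
      by_contra h
      exact hy (if_neg h)
    have h2 : (X i j).coeff y.1 ≠ 0 := by
      intro h
      apply hy
      have h3 : f i j y = s (((X i j).coeff y.1).coeff (Multiplicative.toAdd y.2)) := if_pos h1
      rw [h3, h, HahnSeries.coeff_zero, hs0]
    exact Finset.mem_product.2 ⟨Finsupp.mem_support_iff.2 h2,
      Finset.mem_image.2 ⟨Multiplicative.toAdd y.2, Finset.mem_Ico.2 h1, rfl⟩⟩
  refine ⟨fun i j => MonoidAlgebra.ofCoeff (Finsupp.onFinset _ (f i j) (hf i j)), ?_, ?_⟩
  · intro i j g d hd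
    change L.π (f i j (g, Multiplicative.ofAdd d)) = _
    by_cases h : M ≤ d
    · have h1 : f i j (g, Multiplicative.ofAdd d) = s (((X i j).coeff g).coeff d) :=
        if_pos ⟨h, hd⟩
      rw [h1, hs]
    · have h1 : f i j (g, Multiplicative.ofAdd d) = 0 := if_neg fun h' => h h'.1
      rw [h1, map_zero, hX i j g d (not_le.1 h)]
  · intro i j x hx
    by_contra h
    exact hx (if_neg fun h' => h h'.1)

theorem Appr.oge {M R : ℤ} (h : M ≤ R) {b : Matrix ι ι (MonoidAlgebra L.B (G × Multiplicative ℤ))}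
    {X : Matrix ι ι (MonoidAlgebra (LaurentSeries K) G)} (hb : Dge M b) (ha : Appr L R b X) :
    Oge M X := by
  intro i j g d hd
  rw [← ha i j g d (hd.trans_le h)]
  by_cases h0 : (b i j).coeff (g, Multiplicative.ofAdd d) = 0
  · rw [h0, map_zero]
  · exact absurd (hb i j _ h0) (not_le.2 hd)

theorem oge_elt_mul {M M' : ℤ} {x x' : MonoidAlgebra (LaurentSeries K) G}
    (hx : ∀ g (d : ℤ), d < M → (x.coeff g).coeff d = 0)
    (hx' : ∀ g (d : ℤ), d < M' → (x'.coeff g).coeff d = 0) (g : G) (d : ℤ) (hd : d < M + M') :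
    ((x * x').coeff g).coeff d = 0 := by
  classical
  rw [MonoidAlgebra.mul_def]
  revert g
  refine Finset.sum_induction _
    (fun z : MonoidAlgebra (LaurentSeries K) G => ∀ g, (z.coeff g).coeff d = 0) ?_ ?_ ?_
  · intro a b ha hb g
    rw [MonoidAlgebra.coeff_add, Finsupp.add_apply, HahnSeries.coeff_add, ha, hb, add_zero]
  · intro g
    rw [MonoidAlgebra.coeff_zero, Finsupp.zero_apply, HahnSeries.coeff_zero]
  · intro a _
    refine Finset.sum_induction _
      (fun z : MonoidAlgebra (LaurentSeries K) G => ∀ g, (z.coeff g).coeff d = 0) ?_ ?_ ?_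
    · intro a b ha hb g
      rw [MonoidAlgebra.coeff_add, Finsupp.add_apply, HahnSeries.coeff_add, ha, hb, add_zero]
    · intro g
      rw [MonoidAlgebra.coeff_zero, Finsupp.zero_apply, HahnSeries.coeff_zero]
    · intro a' _ g
      rw [MonoidAlgebra.coeff_single, Finsupp.single_apply]
      split_ifs
      · rw [HahnSeries.coeff_mul]
        refine Finset.sum_eq_zero fun ij hij => ?_
        have h1 : ij.1 + ij.2 = d := (Finset.mem_antidiagonal.1 hij).2.2
        by_cases h2 : ij.1 < M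
        · rw [hx a ij.1 h2, zero_mul]
        · rw [hx' a' ij.2 (by linarith [not_lt.1 h2]), mul_zero]
      · exact HahnSeries.coeff_zero

theorem Oge.add {M : ℤ} {X X' : Matrix ι ι (MonoidAlgebra (LaurentSeries K) G)}
    (hX : Oge M X) (hX' : Oge M X') : Oge M (X + X') := by
  intro i j g d hd
  rw [Matrix.add_apply, MonoidAlgebra.coeff_add, Finsupp.add_apply, HahnSeries.coeff_add,
    hX i j g d hd, hX' i j g d hd, add_zero]

theorem Oge.mul [Fintype ι] {M M' : ℤ} {X X' : Matrix ι ι (MonoidAlgebra (LaurentSeries K) G)}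
    (hX : Oge M X) (hX' : Oge M' X') : Oge (M + M') (X * X') := by
  intro i j g d hd
  rw [Matrix.mul_apply, MonoidAlgebra.coeff_sum, Finsupp.finsetSum_apply, HahnSeries.coeff_sum]
  exact Finset.sum_eq_zero fun l _ => oge_elt_mul (hX i l) (hX' l j) g d hd

/-- the Laurent series of an element of the group ring of `G × ℤ` -/
noncomputable def lau : MonoidAlgebra L.B (G × Multiplicative ℤ) →+*
    MonoidAlgebra (LaurentSeries K) G :=
  MonoidAlgebra.liftNCRingHom
    ((MonoidAlgebra.singleOneRingHom (R := LaurentSeries K) (M := G)).comp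
      ((HahnSeries.C : K →+* LaurentSeries K).comp L.π))
    { toFun := fun x => MonoidAlgebra.single x.1
        (HahnSeries.single (Multiplicative.toAdd x.2) (1 : K))
      map_one' := rfl
      map_mul' := fun x y => by
        rw [MonoidAlgebra.single_mul_single, HahnSeries.single_mul_single, one_mul]
        rfl }
    (fun b x => by
      change MonoidAlgebra.single (1 : G) (HahnSeries.C (L.π b)) * MonoidAlgebra.single x.1
          (HahnSeries.single (Multiplicative.toAdd x.2) (1 : K)) =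
        MonoidAlgebra.single x.1
          (HahnSeries.single (Multiplicative.toAdd x.2) (1 : K)) *
          MonoidAlgebra.single (1 : G) (HahnSeries.C (L.π b))
      rw [MonoidAlgebra.single_mul_single, MonoidAlgebra.single_mul_single, mul_one, one_mul,
        mul_comm (HahnSeries.C (L.π b))])

theorem lau_single (x : G × Multiplicative ℤ) (b : L.B) :
    lau L (MonoidAlgebra.single x b) = MonoidAlgebra.single x.1
      (HahnSeries.single (Multiplicative.toAdd x.2) (L.π b)) := by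
  refine (MonoidAlgebra.liftNC_single _ _ _ _).trans ?_
  change MonoidAlgebra.single (1 : G) (HahnSeries.C (L.π b)) * MonoidAlgebra.single x.1
    (HahnSeries.single (Multiplicative.toAdd x.2) (1 : K)) = _
  rw [MonoidAlgebra.single_mul_single, one_mul, HahnSeries.C_apply, HahnSeries.single_mul_single,
    zero_add, mul_one]

theorem lau_coeff (a : MonoidAlgebra L.B (G × Multiplicative ℤ)) (g : G) (d : ℤ) :
    ((lau L a).coeff g).coeff d = L.π (a.coeff (g, Multiplicative.ofAdd d)) := by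
  classical
  induction a using MonoidAlgebra.induction_linear with
  | zero => simp
  | add a b ha hb =>
    rw [map_add, MonoidAlgebra.coeff_add, Finsupp.add_apply, HahnSeries.coeff_add, ha, hb,
      MonoidAlgebra.coeff_add, Finsupp.add_apply, map_add]
  | single x b =>
    rw [lau_single, MonoidAlgebra.coeff_single, MonoidAlgebra.coeff_single, Finsupp.single_apply,
      Finsupp.single_apply]
    by_cases h1 : x.1 = g
    · rw [if_pos h1]
      by_cases h2 : Multiplicative.toAdd x.2 = d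
      · rw [if_pos (Prod.ext h1 h2), ← h2, HahnSeries.coeff_single_same]
      · rw [if_neg (fun h => h2 (congrArg (fun z : G × Multiplicative ℤ =>
          Multiplicative.toAdd z.2) h)), map_zero, HahnSeries.coeff_single_of_ne (Ne.symm h2)]
    · rw [if_neg h1, if_neg (fun h => h1 (congrArg Prod.fst h)), map_zero, HahnSeries.coeff_zero]

theorem appr_iff {R : ℤ} {b : Matrix ι ι (MonoidAlgebra L.B (G × Multiplicative ℤ))}
    {X : Matrix ι ι (MonoidAlgebra (LaurentSeries K) G)} :
    Appr L R b X ↔ Oge R (b.map (lau L) - X) := by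
  refine forall_congr' fun i => forall_congr' fun j => forall_congr' fun g =>
    forall_congr' fun d => forall_congr' fun _ => ?_
  rw [Matrix.sub_apply, Matrix.map_apply, MonoidAlgebra.coeff_sub, Finsupp.sub_apply,
    HahnSeries.coeff_sub, lau_coeff, sub_eq_zero]

theorem oge_lau {M : ℤ} {b : Matrix ι ι (MonoidAlgebra L.B (G × Multiplicative ℤ))}
    (hb : Dge M b) : Oge M (b.map (lau L)) := by
  intro i j g d hd
  rw [Matrix.map_apply, lau_coeff]
  by_cases h0 : (b i j).coeff (g, Multiplicative.ofAdd d) = 0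
  · rw [h0, map_zero]
  · exact absurd (hb i j _ h0) (not_le.2 hd)

theorem appr_mul [Fintype ι] {M R : ℤ} (_hM : 0 ≤ M)
    {b b' : Matrix ι ι (MonoidAlgebra L.B (G × Multiplicative ℤ))}
    {X X' : Matrix ι ι (MonoidAlgebra (LaurentSeries K) G)} (_hb : Dge (-M) b) (hb' : Dge (-M) b')
    (hX : Oge (-M) X) (_hX' : Oge (-M) X') (h : Appr L R b X) (h' : Appr L R b' X') :
    Appr L (R - M) (b * b') (X * X') := by
  rw [appr_iff] at h h' ⊢
  have e1 : (b * b').map (lau L) - X * X' =
      (b.map (lau L) - X) * b'.map (lau L) + X * (b'.map (lau L) - X') := by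
    rw [Matrix.map_mul, sub_mul, mul_sub, sub_add_sub_cancel]
  rw [e1]
  exact ((h.mul (oge_lau L hb')).mono (by linarith)).add ((hX.mul h').mono (by linarith))

theorem appr_congr {M R : ℤ} (_h : M ≤ R)
    {b b' : Matrix ι ι (MonoidAlgebra L.B (G × Multiplicative ℤ))}
    {X : Matrix ι ι (MonoidAlgebra (LaurentSeries K) G)} (hb : Dge M b) (hb' : Dge M b')
    (ha : Appr L R b X) (ha' : Appr L R b' X) :
    ∃ d e, b' = b + p • d + e ∧ Dge M d ∧ Dge R e := by
  classical
  let t : L.B → L.B := fun b => if hb : b ≠ 0 ∧ L.π b = 0 then (L.hker b hb.2).choose else 0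
  have ht0 : t 0 = 0 := dif_neg (by simp)
  have ht : ∀ b, L.π b = 0 → (p : L.B) * t b = b := by
    intro b hb
    by_cases h0 : b = 0
    · subst h0
      rw [ht0, mul_zero]
    · have h1 : t b = (L.hker b hb).choose := dif_pos ⟨h0, hb⟩
      rw [h1]
      exact (L.hker b hb).choose_spec.symm
  let P : G × Multiplicative ℤ → Prop := fun x => Multiplicative.toAdd x.2 < R
  let F : ι → ι → (G × Multiplicative ℤ →₀ L.B) := fun i j => (b' i j).coeff - (b i j).coeff
  have hF : ∀ i j x, F i j x = (b' i j).coeff x - (b i j).coeff x := fun i j x => rfl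
  let D : ι → ι → (G × Multiplicative ℤ →₀ L.B) := fun i j => ((F i j).filter P).mapRange t ht0
  let E : ι → ι → (G × Multiplicative ℤ →₀ L.B) := fun i j => (F i j).filter fun x => ¬ P x
  have hD1 : ∀ i j x, P x → D i j x = t (F i j x) := fun i j x hx => by
    change t (((F i j).filter P) x) = _
    rw [Finsupp.filter_apply_pos _ _ hx]
  have hD2 : ∀ i j x, ¬ P x → D i j x = 0 := fun i j x hx => by
    change t (((F i j).filter P) x) = _
    rw [Finsupp.filter_apply_neg _ _ hx, ht0]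
  have hE1 : ∀ i j x, P x → E i j x = 0 := fun i j x hx =>
    Finsupp.filter_apply_neg (fun x => ¬ P x) _ (not_not.2 hx)
  have hE2 : ∀ i j x, ¬ P x → E i j x = F i j x := fun i j x hx =>
    Finsupp.filter_apply_pos (fun x => ¬ P x) _ hx
  refine ⟨fun i j => MonoidAlgebra.ofCoeff (D i j), fun i j => MonoidAlgebra.ofCoeff (E i j),
    ?_, ?_, ?_⟩
  · refine Matrix.ext fun i j => MonoidAlgebra.coeff_injective (Finsupp.ext fun x => ?_)
    change _ = (b i j).coeff x + p • D i j x + E i j x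
    by_cases hx : P x
    · rw [hD1 i j x hx, hE1 i j x hx, add_zero, nsmul_eq_mul, ht, hF]
      · ring
      · have h1 := ha i j x.1 (Multiplicative.toAdd x.2) hx
        have h2 := ha' i j x.1 (Multiplicative.toAdd x.2) hx
        rw [hF, map_sub, sub_eq_zero]
        exact h2.trans h1.symm
    · rw [hD2 i j x hx, hE2 i j x hx, hF, smul_zero]
      ring
  · intro i j x hx
    by_contra h
    apply hx
    change D i j x = 0
    have h1 : (b i j).coeff x = 0 := by
      by_contra h2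
      exact h (hb i j x h2)
    have h1' : (b' i j).coeff x = 0 := by
      by_contra h2
      exact h (hb' i j x h2)
    have h3 : F i j x = 0 := by rw [hF, h1, h1', sub_zero]
    by_cases hx : P x
    · rw [hD1 i j x hx, h3, ht0]
    · exact hD2 i j x hx
  · intro i j x hx
    by_contra h
    exact hx (hE1 i j x (not_le.1 h))

end

section

variable {K : Type u} [Field K] {p m : ℕ} (L : LD K p m) {G : Type v} [Group G] {ι : Type*}
  [Fintype ι] [DecidableEq ι] {c : G} {k : ℕ}

/-- two families of approximations -/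
theorem TB_appr {Φ : (Fin k → Fin (p ^ m) → G × Multiplicative ℤ) → L.B}
    (hΦ : IsInv (c, (1 : Multiplicative ℤ)) Φ) (M : ℕ) (R R' : ℤ) (hR : (k * p ^ m * M : ℕ) < R)
    (hR' : (k * p ^ m * M : ℕ) < R')
    (X : Fin k → Matrix ι ι (MonoidAlgebra (LaurentSeries K) G))
    (b b' : Fin k → Matrix ι ι (MonoidAlgebra L.B (G × Multiplicative ℤ)))
    (hb : ∀ j, Dge (-(M : ℤ)) (b j)) (hb' : ∀ j, Dge (-(M : ℤ)) (b' j))
    (h : ∀ j, Appr L R (b j) (X j)) (h' : ∀ j, Appr L R' (b' j) (X j)) :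
    TB (c, 1) Φ b' = TB (c, 1) Φ b := by
  have hM : (0 : ℤ) ≤ M := Int.natCast_nonneg M
  have hR0 : ((k * p ^ m * M : ℕ) : ℤ) < min R R' := lt_min hR hR'
  have hMR : -(M : ℤ) ≤ min R R' := by
    have h1 := (Int.natCast_nonneg (k * p ^ m * M)).trans_lt hR0
    linarith
  have key : ∀ j, ∃ d e, b' j = b j + p • d + e ∧ Dge (-(M : ℤ)) d ∧ Dge (min R R') e := fun j =>
    appr_congr L hMR (hb j) (hb' j) (fun x y g d hd => h j x y g d (hd.trans_le (min_le_left _ _)))
      (fun x y g d hd => h' j x y g d (hd.trans_le (min_le_right _ _)))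
  choose d e h1 h2 h3 using key
  have h4 : b' = fun j => (b j + p • d j) + e j := funext h1
  rw [h4, TB_deg c Φ M (min R R') hR0 (fun j => b j + p • d j) e
    (fun j => (hb j).add ((h2 j).nsmul p)) h3]
  exact TB_congr L.hp L.hB hΦ b _ fun j => ⟨d j, rfl⟩

/-- good approximations -/
def Good (q : ℕ) (X : Fin k → Matrix ι ι (MonoidAlgebra (LaurentSeries K) G))
    (b : Fin k → Matrix ι ι (MonoidAlgebra L.B (G × Multiplicative ℤ))) : Prop :=
  ∃ (M : ℕ) (R : ℤ), (k * q * M : ℕ) < R ∧ (∀ j, Dge (-(M : ℤ)) (b j)) ∧ ∀ j, Appr L R (b j) (X j)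

theorem exists_good (q : ℕ) (X : Fin k → Matrix ι ι (MonoidAlgebra (LaurentSeries K) G)) :
    ∃ b, Good L q X b := by
  have h1 : ∀ j, ∃ M : ℕ, Oge (-(M : ℤ)) (X j) := fun j => exists_oge (X j)
  choose M hM using h1
  have h2 : ∀ j, ∃ b, Appr L ((k * q * (∑ j, M j) : ℕ) + 1) b (X j) ∧ Dge (-((∑ j, M j : ℕ) : ℤ)) b := by
    intro j
    refine exists_appr L _ (X j) ((hM j).mono ?_) _
    have h3 : M j ≤ ∑ j, M j := Finset.single_le_sum (fun _ _ => Nat.zero_le _) (Finset.mem_univ j)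
    have h4 : ((M j : ℕ) : ℤ) ≤ ((∑ j, M j : ℕ) : ℤ) := Int.ofNat_le.2 h3
    linarith
  choose b hb1 hb2 using h2
  exact ⟨b, ∑ j, M j, (k * q * (∑ j, M j) : ℕ) + 1, lt_add_one _, hb2, hb1⟩

/-- The value on tuples of matrices over `K((t))[G]`. -/
noncomputable def TL (c : G) (Φ : (Fin k → Fin (p ^ m) → G × Multiplicative ℤ) → L.B)
    (X : Fin k → Matrix ι ι (MonoidAlgebra (LaurentSeries K) G)) : L.B :=
  TB (c, (1 : Multiplicative ℤ)) Φ (exists_good L (p ^ m) X).choose

/-- **Independence.** PROOF: let `b` be good with `M, R`, the chosen one with `M₀, R₀`; `M₁` the maximum of `M, M₀`;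
by `exists_appr` there are approximations up to a degree `R₂ > k q M₁` bounded below by `-M` and by `-M₀`
(`Appr.oge`); use `TB_appr` three times, with `M`, `M₁`, `M₀`. -/
theorem TL_eq {Φ : (Fin k → Fin (p ^ m) → G × Multiplicative ℤ) → L.B}
    (hΦ : IsInv (c, (1 : Multiplicative ℤ)) Φ)
    (X : Fin k → Matrix ι ι (MonoidAlgebra (LaurentSeries K) G))
    (b : Fin k → Matrix ι ι (MonoidAlgebra L.B (G × Multiplicative ℤ))) (h : Good L (p ^ m) X b) :
    TL L c Φ X = TB (c, 1) Φ b := by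
  unfold TL
  obtain ⟨M₀, R₀, h1, h2, h3⟩ := (exists_good L (p ^ m) X).choose_spec
  obtain ⟨M, R, h4, h5, h6⟩ := h
  generalize (exists_good L (p ^ m) X).choose = b₀ at h2 h3 ⊢
  have hpos : ∀ (N : ℕ) (T : ℤ), ((k * p ^ m * N : ℕ) : ℤ) < T → -(N : ℤ) ≤ T := by
    intro N T hT
    have h7 := (Int.natCast_nonneg (k * p ^ m * N)).trans_lt hT
    have h8 := Int.natCast_nonneg N
    linarith
  have ho : ∀ j, Oge (-(M : ℤ)) (X j) := fun j => Appr.oge L (hpos M R h4) (h5 j) (h6 j)
  have ho₀ : ∀ j, Oge (-(M₀ : ℤ)) (X j) := fun j => Appr.oge L (hpos M₀ R₀ h1) (h2 j) (h3 j)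
  have hle : ∀ N : ℕ, N ≤ max M M₀ → ((k * p ^ m * N : ℕ) : ℤ) < (k * p ^ m * max M M₀ : ℕ) + 1 := by
    intro N hN
    have h7 : k * p ^ m * N ≤ k * p ^ m * max M M₀ := Nat.mul_le_mul_left _ hN
    have h8 : ((k * p ^ m * N : ℕ) : ℤ) ≤ ((k * p ^ m * max M M₀ : ℕ) : ℤ) := Int.ofNat_le.2 h7
    linarith
  have e1 : ∀ j, ∃ b, Appr L ((k * p ^ m * max M M₀ : ℕ) + 1) b (X j) ∧ Dge (-(M : ℤ)) b :=
    fun j => exists_appr L _ (X j) (ho j) _
  have e2 : ∀ j, ∃ b, Appr L ((k * p ^ m * max M M₀ : ℕ) + 1) b (X j) ∧ Dge (-(M₀ : ℤ)) b :=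
    fun j => exists_appr L _ (X j) (ho₀ j) _
  choose b₁ h7 h8 using e1
  choose b₂ h9 h10 using e2
  have hM1 : -((max M M₀ : ℕ) : ℤ) ≤ -(M : ℤ) := neg_le_neg (Int.ofNat_le.2 (le_max_left _ _))
  have hM2 : -((max M M₀ : ℕ) : ℤ) ≤ -(M₀ : ℤ) := neg_le_neg (Int.ofNat_le.2 (le_max_right _ _))
  rw [TB_appr L hΦ M₀ _ R₀ (hle M₀ (le_max_right _ _)) h1 X b₂ b₀ h10 h2 h9 h3,
    TB_appr L hΦ (max M M₀) _ _ (hle _ le_rfl) (hle _ le_rfl) X b₁ b₂ (fun j => (h8 j).mono hM1)
      (fun j => (h10 j).mono hM2) h7 h9,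
    TB_appr L hΦ M R _ h4 (hle M (le_max_left _ _)) X b b₁ h5 h8 h6 h7]

theorem TL_sum {κ : Type*} (s : Finset κ) (a : κ → ℤ) (c : G)
    (Φ : κ → (Fin k → Fin (p ^ m) → G × Multiplicative ℤ) → L.B)
    (X : Fin k → Matrix ι ι (MonoidAlgebra (LaurentSeries K) G)) :
    TL L c (fun v => ∑ i ∈ s, a i • Φ i v) X = ∑ i ∈ s, a i • TL L c (Φ i) X :=
  TB_sum s a _ Φ _

/-- approximations of any precision with a common lower bound -/
theorem exists_apprs {ι' : Type*} [Finite ι'] {k' : ℕ}
    (X : Fin k' → Matrix ι' ι' (MonoidAlgebra (LaurentSeries K) G)) :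
    ∃ M : ℕ, (∀ j, Oge (-(M : ℤ)) (X j)) ∧ ∀ M' : ℕ, M ≤ M' → ∀ R : ℤ,
      ∃ b : Fin k' → Matrix ι' ι' (MonoidAlgebra L.B (G × Multiplicative ℤ)), (∀ j, Dge (-(M' : ℤ)) (b j)) ∧
      ∀ j, Appr L R (b j) (X j) := by
  have h1 : ∀ j, ∃ M : ℕ, Oge (-(M : ℤ)) (X j) := fun j => exists_oge (X j)
  choose M hM using h1
  have h2 : ∀ j, Oge (-((∑ j, M j : ℕ) : ℤ)) (X j) := by
    intro j
    refine (hM j).mono ?_
    have h3 : M j ≤ ∑ j, M j := Finset.single_le_sum (fun _ _ => Nat.zero_le _) (Finset.mem_univ j)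
    have h4 : ((M j : ℕ) : ℤ) ≤ ((∑ j, M j : ℕ) : ℤ) := Int.ofNat_le.2 h3
    linarith
  refine ⟨∑ j, M j, h2, fun M' hM' R => ?_⟩
  have h5 : ∀ j, ∃ b, Appr L R b (X j) ∧ Dge (-(M' : ℤ)) b := fun j =>
    exists_appr L _ (X j) ((h2 j).mono (neg_le_neg (Int.ofNat_le.2 hM'))) R
  choose b hb1 hb2 using h5
  exact ⟨b, hb2, hb1⟩

/-- a function of some of the entries -/
theorem isInv_comp {G₁ : Type*} [Group G₁] {B : Type*} [CommRing B] {c₁ : G₁} {k₁ k₂ q : ℕ}
    {Φ : (Fin k₁ → Fin q → G₁) → B} (hΦ : IsInv c₁ Φ) (s : Fin k₁ → Fin k₂) :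
    IsInv c₁ fun v : Fin k₂ → Fin q → G₁ => Φ fun j => v (s j) :=
  ⟨fun g hg _ => hΦ.inv g hg _, fun _ => hΦ.rot _⟩

/-- the precision for the merged families -/
theorem merge_prec (n q M : ℕ) : (((n + 2) * q * M : ℕ) : ℤ) < ((n + 2) * q * (2 * M) + M + 1 : ℕ) ∧
    (((n + 1) * q * (2 * M) : ℕ) : ℤ) < ((n + 2) * q * (2 * M) + M + 1 : ℕ) - (M : ℤ) := by
  have h1 : (n + 2) * q * M ≤ (n + 2) * q * (2 * M) := Nat.mul_le_mul_left _ (by omega)
  have h2 : (n + 1) * q * (2 * M) ≤ (n + 2) * q * (2 * M) :=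
    Nat.mul_le_mul_right _ (Nat.mul_le_mul_right _ (by omega))
  constructor
  · exact Int.ofNat_lt.2 (by omega)
  · have h3 : (((n + 1) * q * (2 * M) : ℕ) : ℤ) ≤ ((n + 2) * q * (2 * M) : ℕ) := Int.ofNat_le.2 h2
    rw [Nat.cast_add, Nat.cast_add, Nat.cast_one]
    linarith

theorem TL_merge_zero {n : ℕ} {Φ : (Fin (n + 1) → Fin (p ^ m) → G × Multiplicative ℤ) → L.B}
    (hΦ : IsInv (c, (1 : Multiplicative ℤ)) Φ)
    (X : Fin (n + 2) → Matrix ι ι (MonoidAlgebra (LaurentSeries K) G)) :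
    TL L c (fun v : Fin (n + 2) → Fin (p ^ m) → G × Multiplicative ℤ => Φ fun j => v j.succ) X =
      TL L c Φ fun j => if j = Fin.last n then X (Fin.last (n + 1)) * X 0 else X j.succ := by
  obtain ⟨M, hM, hb⟩ := exists_apprs L X
  obtain ⟨b, hb1, hb2⟩ := hb M le_rfl ((n + 2) * p ^ m * (2 * M) + M + 1 : ℕ)
  obtain ⟨h1, h2⟩ := merge_prec n (p ^ m) M
  have hM0 : (0 : ℤ) ≤ M := Int.natCast_nonneg M
  have h3 : ∀ j, Dge (-((2 * M : ℕ) : ℤ)) (b j) := fun j => (hb1 j).mono (by push_cast; linarith)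
  have h4 : Dge (-((2 * M : ℕ) : ℤ)) (b (Fin.last (n + 1)) * b 0) :=
    ((hb1 (Fin.last (n + 1))).mul (hb1 0)).mono (by push_cast; linarith)
  have h5 := appr_mul L hM0 (hb1 (Fin.last (n + 1))) (hb1 0) (hM _) (hM _) (hb2 (Fin.last (n + 1))) (hb2 0)
  rw [TL_eq L (isInv_comp hΦ fun j => j.succ) X b ⟨M, _, h1, hb1, hb2⟩,
    TL_eq L hΦ _ (fun j => if j = Fin.last n then b (Fin.last (n + 1)) * b 0 else b j.succ)
      ⟨2 * M, _, h2, fun j => ?_, fun j => ?_⟩]
  · exact TB_merge_zero (pow_pos L.hp.pos m) hΦ b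
  · beta_reduce
    by_cases hj : j = Fin.last n
    · rw [if_pos hj]
      exact h4
    · rw [if_neg hj]
      exact h3 _
  · beta_reduce
    by_cases hj : j = Fin.last n
    · rw [if_pos hj, if_pos hj]
      exact h5
    · rw [if_neg hj, if_neg hj]
      exact fun x y g d hd => hb2 j.succ x y g d (hd.trans_le (by linarith))

theorem TL_merge_succ {n : ℕ} {Φ : (Fin (n + 1) → Fin (p ^ m) → G × Multiplicative ℤ) → L.B}
    (hΦ : IsInv (c, (1 : Multiplicative ℤ)) Φ)
    (X : Fin (n + 2) → Matrix ι ι (MonoidAlgebra (LaurentSeries K) G)) (i : Fin (n + 1)) :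
    TL L c (fun v : Fin (n + 2) → Fin (p ^ m) → G × Multiplicative ℤ =>
        Φ fun j => v (i.succ.succAbove j)) X =
      TL L c Φ fun j => if j < i then X j.castSucc else
        if j = i then X i.castSucc * X i.succ else X j.succ := by
  obtain ⟨M, hM, hb⟩ := exists_apprs L X
  obtain ⟨b, hb1, hb2⟩ := hb M le_rfl ((n + 2) * p ^ m * (2 * M) + M + 1 : ℕ)
  obtain ⟨h1, h2⟩ := merge_prec n (p ^ m) M
  have hM0 : (0 : ℤ) ≤ M := Int.natCast_nonneg M
  have h3 : ∀ j, Dge (-((2 * M : ℕ) : ℤ)) (b j) := fun j => (hb1 j).mono (by push_cast; linarith)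
  have h4 : Dge (-((2 * M : ℕ) : ℤ)) (b i.castSucc * b i.succ) :=
    ((hb1 i.castSucc).mul (hb1 i.succ)).mono (by push_cast; linarith)
  have h5 := appr_mul L hM0 (hb1 i.castSucc) (hb1 i.succ) (hM _) (hM _) (hb2 i.castSucc) (hb2 i.succ)
  rw [TL_eq L (isInv_comp hΦ fun j => i.succ.succAbove j) X b ⟨M, _, h1, hb1, hb2⟩,
    TL_eq L hΦ _ (fun j => if j < i then b j.castSucc else
        if j = i then b i.castSucc * b i.succ else b j.succ)
      ⟨2 * M, _, h2, fun j => ?_, fun j => ?_⟩]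
  · exact TB_merge_succ (pow_pos L.hp.pos m) hΦ b i
  · beta_reduce
    split_ifs with hj hj'
    · exact h3 _
    · exact h4
    · exact h3 _
  · beta_reduce
    split_ifs with hj hj'
    · exact fun x y g d hd => hb2 j.castSucc x y g d (hd.trans_le (by linarith))
    · exact h5
    · exact fun x y g d hd => hb2 j.succ x y g d (hd.trans_le (by linarith))

end

section

variable {K : Type u} [Field K] {p m : ℕ} (L : LD K p m) {G : Type v} [Group G] {c : G}

theorem TL_blk {N M : ℕ} {k : ℕ} (hk : 0 < k)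
    {Φ : (Fin k → Fin (p ^ m) → G × Multiplicative ℤ) → L.B}
    (hΦ : IsInv (c, (1 : Multiplicative ℤ)) Φ)
    (X : Fin k → Matrix (Fin N) (Fin N) (MonoidAlgebra (LaurentSeries K) G))
    (X' : Fin k → Matrix (Fin M) (Fin M) (MonoidAlgebra (LaurentSeries K) G)) :
    TL L c Φ (fun j => (fromBlocks (X j) 0 0 (X' j)).submatrix finSumFinEquiv.symm
      finSumFinEquiv.symm) = TL L c Φ X + TL L c Φ X' := by
  obtain ⟨M₁, -, hb⟩ := exists_apprs L X
  obtain ⟨M₂, -, hb'⟩ := exists_apprs L X'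
  have hR : ((k * p ^ m * max M₁ M₂ : ℕ) : ℤ) < (k * p ^ m * max M₁ M₂ : ℕ) + 1 := lt_add_one _
  obtain ⟨b, hb1, hb2⟩ := hb (max M₁ M₂) (le_max_left _ _) ((k * p ^ m * max M₁ M₂ : ℕ) + 1)
  obtain ⟨b', hb1', hb2'⟩ := hb' (max M₁ M₂) (le_max_right _ _) ((k * p ^ m * max M₁ M₂ : ℕ) + 1)
  rw [TL_eq L hΦ X b ⟨_, _, hR, hb1, hb2⟩, TL_eq L hΦ X' b' ⟨_, _, hR, hb1', hb2'⟩,
    TL_eq L hΦ _ (fun j => (fromBlocks (b j) 0 0 (b' j)).submatrix finSumFinEquiv.symm
      finSumFinEquiv.symm) ⟨_, _, hR, fun j => ?_, fun j => ?_⟩]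
  · exact TB_blk hk (pow_pos L.hp.pos m) _ Φ b b'
  · intro x y g hg
    beta_reduce at hg
    rw [submatrix_apply] at hg
    revert hg
    rcases finSumFinEquiv.symm x with x | x <;> rcases finSumFinEquiv.symm y with y | y
    · rw [fromBlocks_apply₁₁]
      exact hb1 j x y g
    · rw [fromBlocks_apply₁₂, Matrix.zero_apply]
      exact fun h => absurd rfl h
    · rw [fromBlocks_apply₂₁, Matrix.zero_apply]
      exact fun h => absurd rfl h
    · rw [fromBlocks_apply₂₂]
      exact hb1' j x y g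
  · intro x y g d hd
    beta_reduce
    rw [submatrix_apply, submatrix_apply]
    rcases finSumFinEquiv.symm x with x | x <;> rcases finSumFinEquiv.symm y with y | y
    · rw [fromBlocks_apply₁₁, fromBlocks_apply₁₁]
      exact hb2 j x y g d hd
    · rw [fromBlocks_apply₁₂, fromBlocks_apply₁₂]
      exact map_zero L.π
    · rw [fromBlocks_apply₂₁, fromBlocks_apply₂₁]
      exact map_zero L.π
    · rw [fromBlocks_apply₂₂, fromBlocks_apply₂₂]
      exact hb2' j x y g d hd

end

end Pool.Agent.H16.FU
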