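import Pool.Agent.H13.TFQ.H71.FQ.Cx

/-!
# Project FU: the product of a homology class with a commuting element

`pri u` is the prism operator of the right multiplication by `u` on the chains of a group. For a homomorphism
`f : Γ → Λ` and an element `u` of `Λ` which commutes with its image, `HG.cr f u : H_{n+1}(Γ) → H_{n+2}(Λ)` is the product
with the class of `u`: `z` is sent to the class of `pri u (f z)`.

PROOFS. `bd_pri`: the usual identity for `P (x_0, …, x_m) = ∑ i, (-1) ^ i (x_0, …, x_i, x_i u, …, x_m u)`.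
`cr_cyc`: `bd (pri u y) = y u - y - pri u (bd y)`; for `y = f z` the tuple `(f x_j u)` is `(u f x_j)`, so `y u - y` is in
`coi`, and `pri u` maps `coi` to `coi`. `cr_mul`: `D = pri (u v) - pri u - pri v (· u)` satisfies `bd D + D bd = 0`, is
equivariant under left multiplications and hence is `bd E - E bd` (`exists_null`, recursively `E (n + 1) x =
cone over x 0 of (D x + E (bd x))`, as in `exists_homotopy`); `pri v ((f z) u) - pri v (f z)` is in `coi`.
-/

set_option autoImplicit false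

universe u v w

namespace Pool.Agent.H16.FU

open Pool.Agent.H71.FQ

section

/-- the null homotopy -/
private noncomputable def nul {X : Type v} {Y : Type w} (D : ∀ m, Cx ℤ X m →ₗ[ℤ] Cx ℤ Y (m + 1))
    (b : X → Y) : ∀ m, Cx ℤ X m →ₗ[ℤ] Cx ℤ Y (m + 2)
  | 0 => Finsupp.linearCombination ℤ fun x : Fin 1 → X =>
      cone ℤ (b (x 0)) 1 (D 0 (Finsupp.single x 1))
  | m + 1 => Finsupp.linearCombination ℤ fun x : Fin (m + 2) → X =>
      cone ℤ (b (x 0)) (m + 2) (D (m + 1) (Finsupp.single x 1) +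
        nul D b m (bd ℤ X m (Finsupp.single x 1)))

private theorem nul_zero_single {X : Type v} {Y : Type w}
    (D : ∀ m, Cx ℤ X m →ₗ[ℤ] Cx ℤ Y (m + 1)) (b : X → Y) (x : Fin 1 → X) :
    nul D b 0 (Finsupp.single x 1) = cone ℤ (b (x 0)) 1 (D 0 (Finsupp.single x 1)) := by
  rw [nul, Finsupp.linearCombination_single, one_smul]

private theorem nul_succ_single {X : Type v} {Y : Type w}
    (D : ∀ m, Cx ℤ X m →ₗ[ℤ] Cx ℤ Y (m + 1)) (b : X → Y) (m : ℕ) (x : Fin (m + 2) → X) :
    nul D b (m + 1) (Finsupp.single x 1) = cone ℤ (b (x 0)) (m + 2)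
      (D (m + 1) (Finsupp.single x 1) + nul D b m (bd ℤ X m (Finsupp.single x 1))) := by
  rw [nul, Finsupp.linearCombination_single, one_smul]

/-- A family of maps of degree one which anticommutes with the boundary is null homotopic. -/
theorem exists_null {X : Type v} {Y : Type w} (D : ∀ m, Cx ℤ X m →ₗ[ℤ] Cx ℤ Y (m + 1))
    (h0 : ∀ c, bd ℤ Y 0 (D 0 c) = 0)
    (h1 : ∀ m (c : Cx ℤ X (m + 1)), bd ℤ Y (m + 1) (D (m + 1) c) + D m (bd ℤ X m c) = 0)
    (b : X → Y) :
    ∃ E : ∀ m, Cx ℤ X m →ₗ[ℤ] Cx ℤ Y (m + 2),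
      (∀ c, bd ℤ Y 1 (E 0 c) = D 0 c) ∧
      (∀ m (c : Cx ℤ X (m + 1)), bd ℤ Y (m + 2) (E (m + 1) c) - E m (bd ℤ X m c) = D (m + 1) c) ∧
      ∀ (s : X → X) (t : Y → Y), (∀ m c, D m (push ℤ s m c) = push ℤ t (m + 1) (D m c)) →
        (∀ x, t (b x) = b (s x)) →
        ∀ m (c : Cx ℤ X m), E m (push ℤ s m c) = push ℤ t (m + 2) (E m c) := by
  have k0 : ∀ c, bd ℤ Y 1 (nul D b 0 c) = D 0 c := by
    intro c
    refine cx_ext (f := (bd ℤ Y 1).comp (nul D b 0)) (g := D 0) ?_ c
    intro x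
    rw [LinearMap.comp_apply, nul_zero_single, bd_cone, h0, map_zero, sub_zero]
  have k1 : ∀ m (c : Cx ℤ X (m + 1)),
      bd ℤ Y (m + 2) (nul D b (m + 1) c) - nul D b m (bd ℤ X m c) = D (m + 1) c := by
    intro m
    induction m with
    | zero =>
      intro c
      refine cx_ext (f := (bd ℤ Y 2).comp (nul D b 1) - (nul D b 0).comp (bd ℤ X 0))
        (g := D 1) ?_ c
      intro x
      have hw : bd ℤ Y 1 (D 1 (Finsupp.single x 1) +
          nul D b 0 (bd ℤ X 0 (Finsupp.single x 1))) = 0 := by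
        rw [map_add, k0, h1]
      rw [LinearMap.sub_apply, LinearMap.comp_apply, LinearMap.comp_apply, nul_succ_single,
        bd_cone, hw, map_zero, sub_zero, add_sub_cancel_right]
    | succ m ih =>
      intro c
      refine cx_ext (f := (bd ℤ Y (m + 3)).comp (nul D b (m + 2)) -
        (nul D b (m + 1)).comp (bd ℤ X (m + 1))) (g := D (m + 2)) ?_ c
      intro x
      have h2 := ih (bd ℤ X (m + 1) (Finsupp.single x 1))
      rw [bd_bd, map_zero, sub_zero] at h2
      have hw : bd ℤ Y (m + 2) (D (m + 2) (Finsupp.single x 1) +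
          nul D b (m + 1) (bd ℤ X (m + 1) (Finsupp.single x 1))) = 0 := by
        rw [map_add, h2, h1]
      rw [LinearMap.sub_apply, LinearMap.comp_apply, LinearMap.comp_apply, nul_succ_single,
        bd_cone, hw, map_zero, sub_zero, add_sub_cancel_right]
  refine ⟨nul D b, k0, k1, ?_⟩
  intro s t hD hb m
  induction m with
  | zero =>
    intro c
    refine cx_ext (f := (nul D b 0).comp (push ℤ s 0)) (g := (push ℤ t 2).comp (nul D b 0)) ?_ c
    intro x
    rw [LinearMap.comp_apply, LinearMap.comp_apply, push_single, nul_zero_single,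
      nul_zero_single, push_cone, hb, ← hD, push_single]
  | succ m ih =>
    intro c
    refine cx_ext (f := (nul D b (m + 1)).comp (push ℤ s (m + 1)))
      (g := (push ℤ t (m + 3)).comp (nul D b (m + 1))) ?_ c
    intro x
    rw [LinearMap.comp_apply, LinearMap.comp_apply, push_single, nul_succ_single,
      nul_succ_single, push_cone, hb, map_add (push ℤ t (m + 2)), ← hD, ← ih, ← bd_push,
      push_single]

variable {Λ : Type v} [Group Λ]

/-- the tuple `(x_0, …, x_i, x_i u, …, x_m u)` -/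
def priT (u : Λ) {m : ℕ} (x : Fin (m + 1) → Λ) (i : Fin (m + 1)) : Fin (m + 2) → Λ := fun j =>
  if i.castSucc < j then x (i.predAbove j) * u else x (i.predAbove j)

/-- the prism operator -/
noncomputable def pri (u : Λ) (m : ℕ) : Cx ℤ Λ m →ₗ[ℤ] Cx ℤ Λ (m + 1) :=
  Finsupp.linearCombination ℤ fun x : Fin (m + 1) → Λ =>
    ∑ i : Fin (m + 1), (-1 : ℤ) ^ (i : ℕ) • Finsupp.single (priT u x i) (1 : ℤ)

theorem pri_single (u : Λ) (m : ℕ) (x : Fin (m + 1) → Λ) : pri u m (Finsupp.single x 1) =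
    ∑ i : Fin (m + 1), (-1 : ℤ) ^ (i : ℕ) • Finsupp.single (priT u x i) (1 : ℤ) := by
  rw [pri, Finsupp.linearCombination_single, one_smul]

private theorem priT_cons_zero (u y : Λ) {m : ℕ} (z : Fin (m + 1) → Λ) :
    priT u (Fin.cons y z : Fin (m + 2) → Λ) 0 =
      (Fin.cons y fun j => (Fin.cons y z : Fin (m + 2) → Λ) j * u : Fin (m + 3) → Λ) := by
  funext j
  refine Fin.cases ?_ (fun k => ?_) j
  · unfold priT
    rw [if_neg (by simp)]
    simp
  · unfold priT
    rw [if_pos (by simp)]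
    simp

private theorem priT_cons_succ (u y : Λ) {m : ℕ} (z : Fin (m + 1) → Λ) (i : Fin (m + 1)) :
    priT u (Fin.cons y z : Fin (m + 2) → Λ) i.succ =
      (Fin.cons y (priT u z i) : Fin (m + 3) → Λ) := by
  funext j
  refine Fin.cases ?_ (fun k => ?_) j
  · unfold priT
    rw [if_neg (by simp)]
    simp
  · rw [Fin.cons_succ]
    unfold priT
    rw [Fin.succ_predAbove_succ, Fin.cons_succ]
    have h : i.succ.castSucc < k.succ ↔ i.castSucc < k := by
      rw [← Fin.succ_castSucc, Fin.succ_lt_succ_iff]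
    by_cases h1 : i.castSucc < k
    · rw [if_pos h1, if_pos (h.2 h1)]
    · rw [if_neg h1, if_neg (fun h2 => h1 (h.1 h2))]

private theorem pri_cone (u y : Λ) (m : ℕ) (c : Cx ℤ Λ m) :
    pri u (m + 1) (cone ℤ y m c) =
      cone ℤ y (m + 1) (push ℤ (fun y => y * u) (m + 1) (cone ℤ y m c)) -
        cone ℤ y (m + 1) (pri u m c) := by
  refine cx_ext (f := (pri u (m + 1)).comp (cone ℤ y m))
    (g := (cone ℤ y (m + 1)).comp ((push ℤ (fun y => y * u) (m + 1)).comp (cone ℤ y m)) -
      (cone ℤ y (m + 1)).comp (pri u m)) ?_ c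
  intro z
  simp only [LinearMap.comp_apply, LinearMap.sub_apply]
  rw [cone_single, push_single, cone_single, pri_single, pri_single, Fin.sum_univ_succ, map_sum,
    sub_eq_add_neg, ← Finset.sum_neg_distrib, priT_cons_zero, Fin.val_zero, pow_zero, one_smul]
  congr 1
  refine Finset.sum_congr rfl fun i _ => ?_
  rw [priT_cons_succ, map_smul, cone_single, Fin.val_succ, pow_succ, mul_neg_one, neg_smul]

theorem bd_pri_zero (u : Λ) (c : Cx ℤ Λ 0) :
    bd ℤ Λ 0 (pri u 0 c) = push ℤ (fun y => y * u) 0 c - c := by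
  refine cx_ext (f := (bd ℤ Λ 0).comp (pri u 0))
    (g := push ℤ (fun y => y * u) 0 - LinearMap.id) ?_ c
  intro x
  simp only [LinearMap.comp_apply, LinearMap.sub_apply, LinearMap.id_apply]
  rw [pri_single, push_single, Fin.sum_univ_one, Fin.val_zero, pow_zero, one_smul, bd_single,
    Fin.sum_univ_two, Fin.val_zero, Fin.val_one, pow_zero, pow_one, one_smul, neg_one_smul,
    ← sub_eq_add_neg]
  have e1 : (fun j => priT u x 0 (Fin.succAbove 0 j)) = fun j => x j * u := by
    funext j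
    have hj : j = 0 := Fin.eq_zero j
    subst hj
    unfold priT
    rw [if_pos (by decide)]
    rfl
  have e2 : (fun j => priT u x 0 (Fin.succAbove 1 j)) = x := by
    funext j
    have hj : j = 0 := Fin.eq_zero j
    subst hj
    unfold priT
    rw [if_neg (by decide)]
    rfl
  rw [e1, e2]

omit [Group Λ] in
private theorem single_eq_cone {m : ℕ} (x : Fin (m + 2) → Λ) :
    (Finsupp.single x 1 : Cx ℤ Λ (m + 1)) =
      cone ℤ (x 0) m (Finsupp.single (Fin.tail x : Fin (m + 1) → Λ) 1) := by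
  rw [cone_single, Fin.cons_self_tail]

private theorem bd_pri_cone_zero (u y : Λ) (c : Cx ℤ Λ 0) :
    bd ℤ Λ 1 (pri u 1 (cone ℤ y 0 c)) + pri u 0 (bd ℤ Λ 0 (cone ℤ y 0 c)) =
      push ℤ (fun y => y * u) 1 (cone ℤ y 0 c) - cone ℤ y 0 c := by
  have h1 : pri u 0 (Finsupp.single (fun _ => y) (1 : ℤ)) =
      cone ℤ y 0 (push ℤ (fun y => y * u) 0 (Finsupp.single (fun _ => y) (1 : ℤ))) := by
    rw [push_single, cone_single, pri_single, Fin.sum_univ_one, Fin.val_zero, pow_zero, one_smul]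
    congr 1
    funext j
    refine Fin.cases ?_ (fun k => ?_) j
    · unfold priT
      rw [if_neg (by simp)]
      simp
    · unfold priT
      rw [if_pos (by simp)]
      simp
  rw [pri_cone, map_sub, bd_cone, bd_cone, bd_push, bd_pri_zero, bd_cone_zero]
  simp only [map_sub, map_smul]
  rw [h1]
  abel

theorem bd_pri (u : Λ) (m : ℕ) (c : Cx ℤ Λ (m + 1)) :
    bd ℤ Λ (m + 1) (pri u (m + 1) c) + pri u m (bd ℤ Λ m c) =
      push ℤ (fun y => y * u) (m + 1) c - c := by
  induction m with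
  | zero =>
    refine cx_ext (f := (bd ℤ Λ 1).comp (pri u 1) + (pri u 0).comp (bd ℤ Λ 0))
      (g := push ℤ (fun y => y * u) 1 - LinearMap.id) ?_ c
    intro x
    rw [single_eq_cone]
    exact bd_pri_cone_zero u (x 0) _
  | succ m ih =>
    refine cx_ext (f := (bd ℤ Λ (m + 2)).comp (pri u (m + 2)) +
      (pri u (m + 1)).comp (bd ℤ Λ (m + 1)))
      (g := push ℤ (fun y => y * u) (m + 2) - LinearMap.id) ?_ c
    intro x
    rw [single_eq_cone]
    set y : Λ := x 0 with hy
    set d : Cx ℤ Λ (m + 1) := Finsupp.single (Fin.tail x : Fin (m + 2) → Λ) 1 with hd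
    simp only [LinearMap.comp_apply, LinearMap.sub_apply, LinearMap.add_apply, LinearMap.id_apply]
    rw [pri_cone, map_sub, bd_cone, bd_cone, bd_push, bd_cone, map_sub (pri u (m + 1)), pri_cone,
      map_sub (push ℤ (fun y => y * u) (m + 1))]
    have e1 : cone ℤ y (m + 1) (bd ℤ Λ (m + 1) (pri u (m + 1) d)) +
        cone ℤ y (m + 1) (pri u m (bd ℤ Λ m d)) =
        cone ℤ y (m + 1) (push ℤ (fun y => y * u) (m + 1) d) - cone ℤ y (m + 1) d := by
      rw [← map_add, ih d, map_sub]
    rw [map_sub (cone ℤ y (m + 1))]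
    have e2 : cone ℤ y (m + 1) (bd ℤ Λ (m + 1) (pri u (m + 1) d)) =
        cone ℤ y (m + 1) (push ℤ (fun y => y * u) (m + 1) d) - cone ℤ y (m + 1) d -
          cone ℤ y (m + 1) (pri u m (bd ℤ Λ m d)) := by
      rw [← e1]
      abel
    rw [e2]
    abel

theorem pri_lmul (u g : Λ) (m : ℕ) (c : Cx ℤ Λ m) :
    pri u m (push ℤ (fun y => g * y) m c) = push ℤ (fun y => g * y) (m + 1) (pri u m c) := by
  refine cx_ext (f := (pri u m).comp (push ℤ (fun y => g * y) m))
    (g := (push ℤ (fun y => g * y) (m + 1)).comp (pri u m)) ?_ c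
  intro x
  rw [LinearMap.comp_apply, LinearMap.comp_apply, push_single, pri_single, pri_single, map_sum]
  refine Finset.sum_congr rfl fun i _ => ?_
  rw [map_smul, push_single]
  congr 2
  funext j
  unfold priT
  split_ifs
  · exact mul_assoc _ _ _
  · rfl

variable {Γ : Type w} [Group Γ] {n : ℕ}

theorem push_pri {Λ' : Type*} [Group Λ'] (g : Λ →* Λ') (u : Λ) (m : ℕ) (c : Cx ℤ Λ m) :
    push ℤ g (m + 1) (pri u m c) = pri (g u) m (push ℤ g m c) := by
  refine cx_ext (f := (push ℤ g (m + 1)).comp (pri u m)) (g := (pri (g u) m).comp (push ℤ g m)) ?_ c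
  intro x
  rw [LinearMap.comp_apply, LinearMap.comp_apply, push_single, pri_single, pri_single, map_sum]
  refine Finset.sum_congr rfl fun i _ => ?_
  rw [map_smul, push_single]
  congr 2
  funext j
  unfold priT
  split_ifs
  · exact map_mul g _ _
  · rfl

/-- the homomorphism `(γ, i) ↦ f γ * u ^ i` -/
def zhom (f : Γ →* Λ) (u : Λ) (hu : ∀ γ, f γ * u = u * f γ) : Γ × Multiplicative ℤ →* Λ where
  toFun x := f x.1 * u ^ (Multiplicative.toAdd x.2)
  map_one' := by
    show f 1 * u ^ (0 : ℤ) = 1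
    rw [map_one, zpow_zero, mul_one]
  map_mul' x y := by
    show f (x.1 * y.1) * u ^ (Multiplicative.toAdd x.2 + Multiplicative.toAdd y.2) =
      f x.1 * u ^ Multiplicative.toAdd x.2 * (f y.1 * u ^ Multiplicative.toAdd y.2)
    have h : f y.1 * u ^ Multiplicative.toAdd x.2 = u ^ Multiplicative.toAdd x.2 * f y.1 :=
      Commute.zpow_right (hu y.1) _
    rw [map_mul, zpow_add, mul_assoc, mul_assoc, ← mul_assoc (f y.1), h, mul_assoc]

end

section

variable {Γ : Type w} [Group Γ] {n : ℕ} {M : Type u} [CommRing M]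

/-- the cup product of a cocycle with the degree -/
def cupd (φ : (Fin (n + 2) → Γ) → M) (x : Fin (n + 3) → Γ × Multiplicative ℤ) : M :=
  φ (fun j => (x j.castSucc).1) *
    ((Multiplicative.toAdd ((x (Fin.last (n + 1)).castSucc).2⁻¹ * (x (Fin.last (n + 2))).2) : ℤ) : M)

end

end Pool.Agent.H16.FU
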