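import Pool.Agent.H13.TFQ.M66

/-!
# Project FU: the value of the functional of `K((t))[G]` on the `K₁`-part

`dtl_hn01`: for `i : k → K((t))` and `j : F → k` with `i ∘ j` the inclusion of the constants composed with
`X.i : F → K`, the functional `dtl` of `[D, y · u, z]` is `(-1) ^ (n + 1) d(c) ord(i u)` times the functional `dtr` of
`[D, y, z]`.

PROOFS. `vl_z`: `(a, 1)` and `(c, 1)` are conjugate in `G × ℤ` iff `a` and `c` are conjugate in `G`; with `u a u⁻¹ = c`:
`czh c ∘ cj (u, 1) ∘ zcz D` is `cj u × id`, `HG.crz` is natural (`HG.map_cr`, `HG.cr_comp`), `HG.ev_cupd`. `gasm_z`: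
`gasm_comp`, `gasm_map`. `dtl_lp`: `trL_lp`, `gasm_z`, `trT_sym` for `nuz (X.nu m c hc)`, `cz φ` and `Dz D`, `vl_z`,
`dtr_sy` (transport of `T (dlt a)` along `ez D` as in `LT_aut`; `y` lifts: `map_liftK`). `asm1_t`: `asm1_bass`,
`map_asm`, `asm_comp` (both sides are `asm` for the homomorphisms `K[D] → K((t))[G]` and
`Z_G(D) × ℤ → K((t))[G]ˣ`, `(γ, i) ↦ γ t ^ i`). `dtl_unit`: `map_gasm1`, `map_sbass` for `K⟦X⟧ → K((X))`, `dtl_ps`.
`laurent_unit`: `LaurentSeries.single_order_mul_powerSeriesPart`. `dtl_hn01`: `map_assembly1`, `hn1_hn01`, `hn01_sy`,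
`sbass_map`, `asm1_sy1`, `laurent_unit`, `sbass_mul` (and its consequence for integer powers), `asm1_t`, `dtl_lp`,
`dtl_unit`.
-/

set_option autoImplicit false

open Matrix

universe t u v w

namespace Pool.Agent.H16.FU

open Pool.Agent.H71.FQ
open Pool.Agent.H71.FJ (K0 K0.mk K0.map K0.map_map LT dlt dlt_comm T liftK map_liftK LT_map LT_congr dlt_self dlt_ne)
open Pool.Agent.H71.DB (bass bass_mk bass_mul bass_comp map_bass)
open Pool.Agent.H95.WH (K1 K1.mk K1.unit K1.map K1.map_mk K1.map_map FamSub conjHom FinSub)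

section Grp

variable {G : Type v} [Group G] {n : ℕ}

/-- the subgroup `D` in degree zero -/
def Dz (D : Subgroup G) : Subgroup (G × Multiplicative ℤ) := D.map (MonoidHom.inl G (Multiplicative ℤ))

/-- the isomorphism `D ≃ Dz D` -/
noncomputable def ez (D : Subgroup G) : D ≃* Dz D :=
  D.equivMapOfInjective _ (fun _ _ h => congrArg Prod.fst h)

theorem ez_coe (D : Subgroup G) (a : D) : (ez D a : G × Multiplicative ℤ) = ((a : G), 1) := rfl

/-- the centralizer of `Dz D` -/
def zcz (D : Subgroup G) : Subgroup.centralizer (D : Set G) × Multiplicative ℤ →*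
    Subgroup.centralizer ((Dz D : Subgroup (G × Multiplicative ℤ)) :
      Set (G × Multiplicative ℤ)) where
  toFun z := ⟨(z.1.1, z.2), by
    rw [Subgroup.mem_centralizer_iff]
    rintro _ ⟨a, ha, rfl⟩
    exact Prod.ext (Subgroup.mem_centralizer_iff.1 z.1.2 a ha) (mul_comm _ _)⟩
  map_one' := rfl
  map_mul' _ _ := rfl

/-- `D → G × ℤ` -/
def f0 (D : Subgroup G) : D →* G × Multiplicative ℤ :=
  (MonoidHom.inl G (Multiplicative ℤ)).comp D.subtype

/-- `Z_G(D) × ℤ → G × ℤ` -/
def κ0 (D : Subgroup G) :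
    Subgroup.centralizer (D : Set G) × Multiplicative ℤ →* G × Multiplicative ℤ :=
  MonoidHom.prodMap (Subgroup.centralizer (D : Set G)).subtype (MonoidHom.id _)

theorem comm0 (D : Subgroup G) (γ : Subgroup.centralizer (D : Set G) × Multiplicative ℤ) (a : D) :
    f0 D a * κ0 D γ = κ0 D γ * f0 D a :=
  Prod.ext (cent_comm D γ.1 a) (mul_comm _ _)

theorem vl_z {Λ : Type u} [CommRing Λ] {c : G}
    {φ : (Fin (n + 2) → Subgroup.centralizer ({c} : Set G)) → Λ}
    (hφ : IsCoc (Subgroup.centralizer ({c} : Set G)) n φ) (D : Subgroup G) (a : D)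
    (z : HG (Subgroup.centralizer (D : Set G)) n) :
    vl (isCoc_cz hφ) (Dz D) (ez D a) (HG.map (n + 1) (zcz D) (HG.crz _ n z)) =
      (-1 : Λ) ^ (n + 1) * vl hφ D a z := by
  by_cases h : ∃ u : G, u * (a : G) * u⁻¹ = c
  · obtain ⟨u, hu⟩ := h
    have h' : ((u, 1) : G × Multiplicative ℤ) * (ez D a : G × Multiplicative ℤ) * (u, 1)⁻¹ =
        (c, 1) := by
      rw [ez_coe]
      refine Prod.ext hu ?_
      show (1 : Multiplicative ℤ) * 1 * 1⁻¹ = 1
      rw [one_mul, inv_one, mul_one]
    rw [vl_eq (isCoc_cz hφ) (Dz D) (ez D a) (u, 1) h', vl_eq hφ D a u hu, HG.map_map, HG.ev_map,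
      HG.ev_map, ← HG.ev_cupd]
    refine HG.ev_congr _ _ (fun x => ?_) _
    show φ _ * _ = φ _ * _
    congr 1
    congr 1
    have key : ∀ y : Subgroup.centralizer (D : Set G) × Multiplicative ℤ,
        (czh c ((cj (Dz D) (ez D a) (u, 1) h') (zcz D y))).2 = y.2 := by
      intro y
      show (1 : Multiplicative ℤ) * y.2 * 1⁻¹ = y.2
      rw [one_mul, inv_one, mul_one]
    have k1 := key (x (Fin.last (n + 1)).castSucc)
    have k2 := key (x (Fin.last (n + 2)))
    rw [← k1, ← k2]
    rfl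
  · have h' : ¬ ∃ u : G × Multiplicative ℤ, u * (ez D a : G × Multiplicative ℤ) * u⁻¹ =
        (c, 1) := by
      rintro ⟨u, hu⟩
      exact h ⟨u.1, congrArg Prod.fst hu⟩
    unfold vl
    rw [dif_neg h, dif_neg h', mul_zero]

theorem gasm_z {R : Type u} [Ring R] (D : Subgroup G) (y : K0 (MonoidAlgebra R D)) (m : ℕ)
    (z : HG (Subgroup.centralizer (D : Set G) × Multiplicative ℤ) m) :
    gasm R m (f0 D) (κ0 D) (comm0 D) y z =
      gasm R m (Dz D).subtype (Subgroup.centralizer ((Dz D : Subgroup (G × Multiplicative ℤ)) :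
        Set (G × Multiplicative ℤ))).subtype (cent_comm' (Dz D))
        (K0.map (MonoidAlgebra.mapDomainRingHom R (ez D).toMonoidHom) y)
        (HG.map m (zcz D) z) := by
  have h1 : ∀ γ a, ((Dz D).subtype.comp (ez D).toMonoidHom) a *
      (Subgroup.centralizer ((Dz D : Subgroup (G × Multiplicative ℤ)) :
        Set (G × Multiplicative ℤ))).subtype γ =
      (Subgroup.centralizer ((Dz D : Subgroup (G × Multiplicative ℤ)) :
        Set (G × Multiplicative ℤ))).subtype γ * ((Dz D).subtype.comp (ez D).toMonoidHom) a :=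
    fun γ a => cent_comm' (Dz D) γ (ez D a)
  rw [gasm_comp R m (Dz D).subtype (ez D).toMonoidHom _ _ h1, gasm_map R m _ _ (zcz D) h1
    (fun γ a => h1 (zcz D γ) a)]
  rfl

end Grp

section

variable {k : Type u} [Field k] {K : Type t} [Field K] {G : Type v} [Group G] (X : Ctx k K G)
  {n : ℕ}

theorem dtl_lp (D : FamSub G FinSub) [Fintype D.1] [IsCyclic D.1]
    (ho : ∀ h : D.1, (orderOf h : k) ≠ 0) (z : HG (Subgroup.centralizer (D.1 : Set G)) n)
    (c : G) (hc : IsOfFinOrder c)
    {φ : (Fin (n + 2) → Subgroup.centralizer ({c} : Set G)) → X.L.Lam}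
    (hφ : IsCoc (Subgroup.centralizer ({c} : Set G)) n φ) (m : ℕ)
    (y : K0 (MonoidAlgebra k D.1)) :
    dtl X c hc hφ m (KQ.map (lp K G) (gasm K (n + 1) (f0 D.1) (κ0 D.1) (comm0 D.1)
      (K0.map (MonoidAlgebra.mapRingHom D.1 X.i) y) (HG.crz _ n z))) =
      (((-1) ^ (n + 1) * X.d c : ℤ) : X.L.sys.B m) *
        X.dtr c hc hφ m (assemblyN k n G (sy D y z)) := by
  classical
  letI : Fintype (Dz D.1) := Fintype.ofEquiv D.1 (ez D.1).toEquiv
  haveI : IsCyclic (Dz D.1) := isCyclic_of_surjective (ez D.1) (ez D.1).surjective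
  have hcard : ¬ X.p ∣ Fintype.card (Dz D.1) := by
    rw [Fintype.card_congr (ez D.1).symm.toEquiv]
    exact X.not_dvd D ho
  have h1 : K0.map (MonoidAlgebra.mapDomainRingHom K (ez D.1).toMonoidHom)
      (K0.map (MonoidAlgebra.mapRingHom D.1 X.i) y) =
      K0.map (MonoidAlgebra.mapRingHom (Dz D.1) (X.ld m).π)
        (liftK X.L.sys m X.i (Dz D.1)
          (K0.map (MonoidAlgebra.mapDomainRingHom k (ez D.1).toMonoidHom) y)) := by
    refine Eq.trans ?_ (map_liftK X.L.sys m X.i (Dz D.1)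
      (K0.map (MonoidAlgebra.mapDomainRingHom k (ez D.1).toMonoidHom) y)).symm
    rw [K0.map_map, K0.map_map]
    congr 2
    refine MonoidAlgebra.ringHom_ext (fun r => ?_) (fun a => ?_)
    · simp
    · simp
  have h2 := trL_lp (X.ld m) (isPhiz X m c hc hφ) (gasm K (n + 1) (f0 D.1) (κ0 D.1) (comm0 D.1)
      (K0.map (MonoidAlgebra.mapRingHom D.1 X.i) y) (HG.crz _ n z))
  refine Eq.trans h2 ?_
  rw [gasm_z, h1]
  refine Eq.trans (trT_sym (X.ld m) X.L.tf (X.L.th m) (nuz (X.nu m c hc)) (X.d c) (X.d_ne c hc)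
    (nuz_mass _ (X.nu_mass m c hc))
    (nuz_mul _ (pow_pos X.hp.pos m) (X.nu_mul m c hc))
    (nuz_sig _ (pow_pos X.hp.pos m) (X.nu_sig m c hc)) (isCoc_cz hφ) (isPhiz X m c hc hφ)
    (Dz D.1) hcard _ _) ?_
  rw [dtr_sy X D ho z c hc hφ m y]
  rw [← Equiv.sum_comp (ez D.1).toEquiv]
  have h3 : ∀ a : D.1, X.L.th m (vl (isCoc_cz hφ) (Dz D.1) ((ez D.1).toEquiv a)
      (HG.map (n + 1) (zcz D.1) (HG.crz _ n z))) *
      T (dlt (X.L.sys.B m) ((ez D.1).toEquiv a)) (dlt_comm _ ((ez D.1).toEquiv a))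
        (liftK X.L.sys m X.i (Dz D.1)
          (K0.map (MonoidAlgebra.mapDomainRingHom k (ez D.1).toMonoidHom) y)) =
      (-1) ^ (n + 1) * (X.L.th m (vl hφ D.1 a z) *
          LT X.L.sys m X.i (dlt (X.L.sys.B m) a) (dlt_comm _ a) y) := by
    intro a
    have h4 := vl_z hφ D.1 a z
    have h5 : T (dlt (X.L.sys.B m) ((ez D.1).toEquiv a)) (dlt_comm _ ((ez D.1).toEquiv a))
        (liftK X.L.sys m X.i (Dz D.1)
          (K0.map (MonoidAlgebra.mapDomainRingHom k (ez D.1).toMonoidHom) y)) =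
        LT X.L.sys m X.i (dlt (X.L.sys.B m) a) (dlt_comm _ a) y := by
      refine Eq.trans (LT_map X.L.sys m X.i (ez D.1).toMonoidHom
        (dlt (X.L.sys.B m) ((ez D.1).toEquiv a)) (dlt_comm _ _) y) ?_
      refine LT_congr X.L.sys m X.i _ _ (fun b => ?_) y
      by_cases hb : b = a
      · subst hb
        rw [dlt_self]
        exact dlt_self _ _
      · rw [dlt_ne _ hb]
        refine dlt_ne _ fun h => hb ((ez D.1).injective h)
    rw [h5]
    have h6 : vl (isCoc_cz hφ) (Dz D.1) ((ez D.1).toEquiv a)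
      (HG.map (n + 1) (zcz D.1) (HG.crz _ n z)) = (-1) ^ (n + 1) * vl hφ D.1 a z := h4
    rw [h6, map_mul, map_pow, map_neg, map_one, mul_assoc]
  have key : ((X.d c ^ (n + 1 + 2) : ℤ) : X.L.sys.B m) *
      ∑ a : D.1, (-1) ^ (n + 1) * (X.L.th m (vl hφ D.1 a z) *
        LT X.L.sys m X.i (dlt (X.L.sys.B m) a) (dlt_comm _ a) y) =
      (((-1) ^ (n + 1) * X.d c : ℤ) : X.L.sys.B m) * (((X.d c ^ (n + 2) : ℤ) : X.L.sys.B m) *
        ∑ a : D.1, X.L.th m (vl hφ D.1 a z) *
          LT X.L.sys m X.i (dlt (X.L.sys.B m) a) (dlt_comm _ a) y) := by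
    rw [← Finset.mul_sum]
    push_cast
    ring
  exact Eq.trans (congrArg (fun t => ((X.d c ^ (n + 1 + 2) : ℤ) : X.L.sys.B m) * t)
    (Finset.sum_congr rfl fun a _ => h3 a)) key

/-- the unit `t` -/
noncomputable def tU (K : Type t) [Field K] : (LaurentSeries K)ˣ :=
  Units.mk0 (HahnSeries.single 1 1) (by
    rw [Ne, HahnSeries.single_eq_zero_iff]
    exact one_ne_zero)

private theorem asm_congr' {A : Type*} [Ring A] {B : Type*} [Ring B] {Γ : Type*} [Group Γ]
    {n : ℕ} {φ φ' : B →+* A} {κ κ' : Γ →* Aˣ} (e : φ = φ') (e' : κ = κ')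
    (hκ : ∀ γ b, φ b * (κ γ : A) = κ γ * φ b) (hκ' : ∀ γ b, φ' b * (κ' γ : A) = κ' γ * φ' b)
    (x : K0 B) (z : HG Γ n) : asm n φ κ hκ x z = asm n φ' κ' hκ' x z := by
  subst e
  subst e'
  rfl

theorem asm1_t (D : Subgroup G) (y : K0 (MonoidAlgebra K D))
    (z : HG (Subgroup.centralizer (D : Set G)) n) :
    gasm1 (LaurentSeries K) n D.subtype (Subgroup.centralizer (D : Set G)).subtype (cent_comm D)
      (sbass D HahnSeries.C (tU K) y) z =
      KQ.map (lp K G) (gasm K (n + 1) (f0 D) (κ0 D) (comm0 D) y (HG.crz _ n z)) := by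
  let φ : MonoidAlgebra (LaurentSeries K) D →+* MonoidAlgebra (LaurentSeries K) G :=
    MonoidAlgebra.mapDomainRingHom (LaurentSeries K) D.subtype
  let ψ : MonoidAlgebra K D →+* MonoidAlgebra (LaurentSeries K) D :=
    MonoidAlgebra.mapRingHom D HahnSeries.C
  let κ₁ : Subgroup.centralizer (D : Set G) →* (MonoidAlgebra (LaurentSeries K) G)ˣ :=
    (grpHom (LaurentSeries K) G).comp (Subgroup.centralizer (D : Set G)).subtype
  have hW : ((Units.map (φ : MonoidAlgebra (LaurentSeries K) D →*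
      MonoidAlgebra (LaurentSeries K) G) (sU D (tU K)) : (MonoidAlgebra (LaurentSeries K) G)ˣ) :
        MonoidAlgebra (LaurentSeries K) G) = MonoidAlgebra.single 1 (HahnSeries.single 1 1) := by
    change MonoidAlgebra.mapDomain D.subtype (MonoidAlgebra.single (1 : D)
      (HahnSeries.single (1 : ℤ) (1 : K))) = _
    rw [MonoidAlgebra.mapDomain_single, map_one]
  have hu : ∀ γ, κ₁ γ * Units.map (φ : MonoidAlgebra (LaurentSeries K) D →*
      MonoidAlgebra (LaurentSeries K) G) (sU D (tU K)) = Units.map (φ :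
        MonoidAlgebra (LaurentSeries K) D →* MonoidAlgebra (LaurentSeries K) G) (sU D (tU K)) *
          κ₁ γ := by
    intro γ
    apply Units.ext
    rw [Units.val_mul, Units.val_mul, hW]
    change MonoidAlgebra.single (γ : G) (1 : LaurentSeries K) * _ =
      _ * MonoidAlgebra.single (γ : G) (1 : LaurentSeries K)
    rw [MonoidAlgebra.single_mul_single, MonoidAlgebra.single_mul_single, one_mul, mul_one,
      one_mul, mul_one]
  have e1 : φ.comp ψ = (lp K G).comp (MonoidAlgebra.mapDomainRingHom K (f0 D)) := by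
    refine RingHom.ext fun b => ?_
    induction b using MonoidAlgebra.induction_linear with
    | zero => rw [map_zero, map_zero]
    | add a b ha hb => rw [map_add, map_add, ha, hb]
    | single a r =>
      change MonoidAlgebra.mapDomain D.subtype (MonoidAlgebra.mapRingHom D HahnSeries.C
          (MonoidAlgebra.single a r)) =
        lp K G (MonoidAlgebra.mapDomain (f0 D) (MonoidAlgebra.single a r))
      rw [MonoidAlgebra.mapRingHom_single, MonoidAlgebra.mapDomain_single,
        MonoidAlgebra.mapDomain_single, lp_single]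
      rfl
  have e2 : zhom κ₁ (Units.map (φ : MonoidAlgebra (LaurentSeries K) D →*
      MonoidAlgebra (LaurentSeries K) G) (sU D (tU K))) hu =
      (Units.map ((lp K G : MonoidAlgebra K (G × Multiplicative ℤ) →+*
        MonoidAlgebra (LaurentSeries K) G) : MonoidAlgebra K (G × Multiplicative ℤ) →*
          MonoidAlgebra (LaurentSeries K) G)).comp
        ((grpHom K (G × Multiplicative ℤ)).comp (κ0 D)) := by
    have e3 : (zhom κ₁ (Units.map (φ : MonoidAlgebra (LaurentSeries K) D →*
        MonoidAlgebra (LaurentSeries K) G) (sU D (tU K))) hu).comp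
          (MonoidHom.inr (Subgroup.centralizer (D : Set G)) (Multiplicative ℤ)) =
        ((Units.map ((lp K G : MonoidAlgebra K (G × Multiplicative ℤ) →+*
          MonoidAlgebra (LaurentSeries K) G) : MonoidAlgebra K (G × Multiplicative ℤ) →*
            MonoidAlgebra (LaurentSeries K) G)).comp
          ((grpHom K (G × Multiplicative ℤ)).comp (κ0 D))).comp
            (MonoidHom.inr (Subgroup.centralizer (D : Set G)) (Multiplicative ℤ)) := by
      apply MonoidHom.ext_mint
      apply Units.ext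
      change ((κ₁ 1 * (Units.map (φ : MonoidAlgebra (LaurentSeries K) D →*
        MonoidAlgebra (LaurentSeries K) G) (sU D (tU K))) ^ (1 : ℤ) :
          (MonoidAlgebra (LaurentSeries K) G)ˣ) : MonoidAlgebra (LaurentSeries K) G) =
        lp K G (MonoidAlgebra.single (1, Multiplicative.ofAdd 1) 1)
      rw [map_one, one_mul, zpow_one, hW, lp_single]
      rfl
    refine MonoidHom.ext fun x => ?_
    have hx : x = (x.1, 1) * (MonoidHom.inr (Subgroup.centralizer (D : Set G))
        (Multiplicative ℤ)) x.2 := Prod.ext (mul_one _).symm (one_mul _).symm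
    rw [hx, map_mul, map_mul]
    congr 1
    · apply Units.ext
      change ((κ₁ x.1 * (Units.map (φ : MonoidAlgebra (LaurentSeries K) D →*
        MonoidAlgebra (LaurentSeries K) G) (sU D (tU K))) ^ (0 : ℤ) :
          (MonoidAlgebra (LaurentSeries K) G)ˣ) : MonoidAlgebra (LaurentSeries K) G) =
        lp K G (MonoidAlgebra.single ((x.1 : G), (1 : Multiplicative ℤ)) 1)
      rw [zpow_zero, mul_one, lp_single]
      change MonoidAlgebra.single (x.1 : G) (1 : LaurentSeries K) =
        MonoidAlgebra.single (x.1 : G) (HahnSeries.single (0 : ℤ) (1 : K))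
      rw [HahnSeries.single_zero_one]
    · exact DFunLike.congr_fun e3 x.2
  have h2 : ∀ (x : Subgroup.centralizer (D : Set G) × Multiplicative ℤ)
      (c : MonoidAlgebra K D), ((lp K G).comp (MonoidAlgebra.mapDomainRingHom K (f0 D))) c *
      (((Units.map ((lp K G : MonoidAlgebra K (G × Multiplicative ℤ) →+*
        MonoidAlgebra (LaurentSeries K) G) : MonoidAlgebra K (G × Multiplicative ℤ) →*
          MonoidAlgebra (LaurentSeries K) G)).comp
        ((grpHom K (G × Multiplicative ℤ)).comp (κ0 D))) x : MonoidAlgebra (LaurentSeries K) G) =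
      ((Units.map ((lp K G : MonoidAlgebra K (G × Multiplicative ℤ) →+*
        MonoidAlgebra (LaurentSeries K) G) : MonoidAlgebra K (G × Multiplicative ℤ) →*
          MonoidAlgebra (LaurentSeries K) G)).comp
        ((grpHom K (G × Multiplicative ℤ)).comp (κ0 D))) x *
          ((lp K G).comp (MonoidAlgebra.mapDomainRingHom K (f0 D))) c := by
    intro x c
    have h3 := congrArg (lp K G) (grpHom_comm K (f0 D) (κ0 D) (comm0 D) x c)
    rw [map_mul, map_mul] at h3
    exact h3
  have h1 : ∀ (x : Subgroup.centralizer (D : Set G) × Multiplicative ℤ)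
      (c : MonoidAlgebra K D), (φ.comp ψ) c * (zhom κ₁ (Units.map (φ :
        MonoidAlgebra (LaurentSeries K) D →* MonoidAlgebra (LaurentSeries K) G) (sU D (tU K))) hu
          x : MonoidAlgebra (LaurentSeries K) G) = zhom κ₁ (Units.map (φ :
        MonoidAlgebra (LaurentSeries K) D →* MonoidAlgebra (LaurentSeries K) G) (sU D (tU K))) hu
          x * (φ.comp ψ) c := by
    rw [e1, e2]
    exact h2
  exact (asm1_bass φ ψ κ₁ (grpHom_comm (LaurentSeries K) D.subtype
    (Subgroup.centralizer (D : Set G)).subtype (cent_comm D)) (sU D (tU K))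
      (fun _ => sU_comm D (tU K) _) hu h1 y z).trans ((asm_congr' e1 e2 h1 h2 y _).trans
        (map_asm _ _ _ (lp K G) h2 y _).symm)

/-- units of `K((t))` -/
theorem laurent_unit (a : (LaurentSeries K)ˣ) : ∃ u : (PowerSeries K)ˣ,
    a = tU K ^ ((a : LaurentSeries K).order) *
      Units.map (HahnSeries.ofPowerSeries ℤ K : PowerSeries K →* LaurentSeries K) u := by
  have h0 : (a : LaurentSeries K) ≠ 0 := a.ne_zero
  have h1 : IsUnit (LaurentSeries.powerSeriesPart (a : LaurentSeries K)) := by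
    rw [PowerSeries.isUnit_iff_constantCoeff, isUnit_iff_ne_zero,
      ← PowerSeries.coeff_zero_eq_constantCoeff_apply, LaurentSeries.powerSeriesPart_coeff,
      Nat.cast_zero, add_zero]
    exact fun h => h0 (HahnSeries.coeff_order_eq_zero.1 h)
  obtain ⟨u, hu⟩ := h1
  refine ⟨u, Units.ext ?_⟩
  have h2 : ((tU K ^ ((a : LaurentSeries K).order) : (LaurentSeries K)ˣ) : LaurentSeries K) =
      HahnSeries.single ((a : LaurentSeries K).order) 1 := by
    rw [Units.val_zpow_eq_zpow_val]
    exact (RatFunc.single_zpow _).symm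
  rw [Units.val_mul, h2]
  show (a : LaurentSeries K) = HahnSeries.single ((a : LaurentSeries K).order) 1 *
    HahnSeries.ofPowerSeries ℤ K (u : PowerSeries K)
  rw [hu]
  exact (LaurentSeries.single_order_mul_powerSeriesPart (a : LaurentSeries K)).symm

theorem dtl_unit (D : Subgroup G) (u : (PowerSeries K)ˣ) (y : K0 (MonoidAlgebra K D))
    (z : HG (Subgroup.centralizer (D : Set G)) n) (c : G) (hc : IsOfFinOrder c)
    {φ : (Fin (n + 2) → Subgroup.centralizer ({c} : Set G)) → X.L.Lam}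
    (hφ : IsCoc (Subgroup.centralizer ({c} : Set G)) n φ) (m : ℕ) :
    dtl X c hc hφ m (gasm1 (LaurentSeries K) n D.subtype
      (Subgroup.centralizer (D : Set G)).subtype (cent_comm D)
      (sbass D HahnSeries.C
        (Units.map (HahnSeries.ofPowerSeries ℤ K : PowerSeries K →* LaurentSeries K) u) y) z) =
      0 := by
  have hC : (HahnSeries.ofPowerSeries ℤ K : PowerSeries K →+* LaurentSeries K).comp
      (PowerSeries.C : K →+* PowerSeries K) = (HahnSeries.C : K →+* LaurentSeries K) :=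
    RingHom.ext fun a => HahnSeries.ofPowerSeries_C a
  have h1 := map_sbass (D : Subgroup G) (PowerSeries.C : K →+* PowerSeries K) u
    (HahnSeries.ofPowerSeries ℤ K : PowerSeries K →+* LaurentSeries K) y
  rw [hC] at h1
  rw [← h1, ← map_gasm1]
  exact dtl_ps X c hc hφ m _

private theorem sbass_zpow {F : Type*} [CommRing F] {k : Type*} [CommRing k] (H : Type*) [Group H]
    (j : F →+* k) (u : kˣ) (x : K0 (MonoidAlgebra F H)) (N : ℤ) :
    sbass H j (u ^ N) x = N • sbass H j u x := by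
  let f : Additive kˣ →+ K1 (MonoidAlgebra k H) :=
    AddMonoidHom.mk' (fun v => sbass H j v.toMul x) fun v w => sbass_mul H j v.toMul w.toMul x
  exact map_zsmul f N (Additive.ofMul u)

/-- **The value of the functional.** -/
theorem dtl_hn01 {k' : Type w} [Field k'] (i : k' →+* LaurentSeries K) (j : k →+* k')
    (hij : i.comp j = (HahnSeries.C : K →+* LaurentSeries K).comp X.i) (D : FamSub G FinSub)
    [Fintype D.1] [IsCyclic D.1] (ho : ∀ h : D.1, (orderOf h : k) ≠ 0) (u : k'ˣ)
    (y : K0 (MonoidAlgebra k D.1)) (z : HG (Subgroup.centralizer (D.1 : Set G)) n)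
    (c : G) (hc : IsOfFinOrder c)
    {φ : (Fin (n + 2) → Subgroup.centralizer ({c} : Set G)) → X.L.Lam}
    (hφ : IsCoc (Subgroup.centralizer ({c} : Set G)) n φ) (m : ℕ) :
    dtl X c hc hφ m (KQ.map (MonoidAlgebra.mapRingHom G i)
      (assembly1 k' n G (hn01 j u (sy D y z)))) =
      (((-1) ^ (n + 1) * X.d c * (i (u : k')).order : ℤ) : X.L.sys.B m) *
        X.dtr c hc hφ m (assemblyN k n G (sy D y z)) := by
  obtain ⟨w, hw⟩ := laurent_unit (Units.map (i : k' →* LaurentSeries K) u)
  rw [map_assembly1, hn1_hn01, hn01_sy, hij, ← sbass_map, asm1_sy1, hw, sbass_mul, sbass_zpow,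
    map_add, AddMonoidHom.add_apply, map_add, dtl_unit, add_zero, map_zsmul,
    AddMonoidHom.zsmul_apply, map_zsmul, asm1_t, dtl_lp X D ho z c hc hφ m y, zsmul_eq_mul,
    ← mul_assoc, ← Int.cast_mul]
  congr 2
  rw [mul_comm]
  rfl

end

end Pool.Agent.H16.FU
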